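import Mathlib
import Pool.Agent.TH670.KN.Pairs
set_option autoImplicit false

/-!
# Functionals on periodic functions with finitely many non-zero values in a period
-/

namespace Pool.Agent.TH945.CB

open Pool.Agent.TH670.KN Finset

/-- period `1` and finitely many non-zero values in a period -/
structure PF (g : ℝ → ℤ) : Prop where
  per : ∀ (x : ℝ) (k : ℤ), g (x + k) = g x
  fin : {x : ℝ | x ∈ Set.Ico (0 : ℝ) 1 ∧ g x ≠ 0}.Finite

/-- the weighted sum of the values of `g` in a period -/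
noncomputable def W (φ : ℝ → ℂ) (g : ℝ → ℤ) : ℂ := ∑ᶠ x ∈ Set.Ico (0 : ℝ) 1, (g x : ℂ) * φ x

lemma W_eq {φ : ℝ → ℂ} {g : ℝ → ℤ} (T : Finset ℝ) (h1 : ∀ x ∈ T, x ∈ Set.Ico (0 : ℝ) 1)
    (h2 : ∀ x ∈ Set.Ico (0 : ℝ) 1, g x ≠ 0 → x ∈ T) : W φ g = ∑ x ∈ T, (g x : ℂ) * φ x := by
  unfold W
  apply finsum_mem_eq_sum_of_subset
  · rintro x ⟨hx, hs⟩
    refine h2 x hx fun h0 => ?_
    rw [Function.mem_support] at hs
    exact hs (by rw [h0]; simp)
  · exact fun x hx => h1 x hx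

lemma PF.add {g h : ℝ → ℤ} (hg : PF g) (hh : PF h) : PF (fun x => g x + h x) where
  per x k := by simp only [hg.per, hh.per]
  fin := (hg.fin.union hh.fin).subset (by
    rintro x ⟨hx, hne⟩
    by_cases h0 : g x = 0
    · right
      refine ⟨hx, fun h1 => hne ?_⟩
      simp only [h0, h1, add_zero]
    · exact Or.inl ⟨hx, h0⟩)

lemma PF.smul {g : ℝ → ℤ} (hg : PF g) (c : ℤ) : PF (fun x => c * g x) where
  per x k := by simp only [hg.per]
  fin := hg.fin.subset (by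
    rintro x ⟨hx, hne⟩
    exact ⟨hx, fun h0 => hne (by simp [h0])⟩)

lemma W_add {φ : ℝ → ℂ} {g h : ℝ → ℤ} (hg : PF g) (hh : PF h) :
    W φ (fun x => g x + h x) = W φ g + W φ h := by
  classical
  set T := hg.fin.toFinset ∪ hh.fin.toFinset with hT
  have h1 : ∀ x ∈ T, x ∈ Set.Ico (0 : ℝ) 1 := by
    intro x hx
    rw [hT, mem_union, Set.Finite.mem_toFinset, Set.Finite.mem_toFinset] at hx
    rcases hx with hx | hx <;> exact hx.1
  have hgT : ∀ x ∈ Set.Ico (0 : ℝ) 1, g x ≠ 0 → x ∈ T := by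
    intro x hx h0
    rw [hT, mem_union, Set.Finite.mem_toFinset]
    exact Or.inl ⟨hx, h0⟩
  have hhT : ∀ x ∈ Set.Ico (0 : ℝ) 1, h x ≠ 0 → x ∈ T := by
    intro x hx h0
    rw [hT, mem_union, Set.Finite.mem_toFinset (hs := hh.fin)]
    exact Or.inr ⟨hx, h0⟩
  have hsT : ∀ x ∈ Set.Ico (0 : ℝ) 1, g x + h x ≠ 0 → x ∈ T := by
    intro x hx h0
    by_cases h2 : g x = 0
    · exact hhT x hx fun h3 => h0 (by rw [h2, h3, add_zero])
    · exact hgT x hx h2
  rw [W_eq T h1 hsT, W_eq T h1 hgT, W_eq T h1 hhT, ← Finset.sum_add_distrib]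
  refine Finset.sum_congr rfl fun x _ => ?_
  push_cast
  ring

lemma W_smul {φ : ℝ → ℂ} {g : ℝ → ℤ} (hg : PF g) (c : ℤ) :
    W φ (fun x => c * g x) = c * W φ g := by
  classical
  set T := hg.fin.toFinset with hT
  have h1 : ∀ x ∈ T, x ∈ Set.Ico (0 : ℝ) 1 := by
    intro x hx
    rw [hT, Set.Finite.mem_toFinset] at hx
    exact hx.1
  have hgT : ∀ x ∈ Set.Ico (0 : ℝ) 1, g x ≠ 0 → x ∈ T := by
    intro x hx h0
    rw [hT, Set.Finite.mem_toFinset]
    exact ⟨hx, h0⟩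
  rw [W_eq T h1 hgT, W_eq T h1 (fun x hx h0 => hgT x hx fun h3 => h0 (by rw [h3, mul_zero])),
    Finset.mul_sum]
  refine Finset.sum_congr rfl fun x _ => ?_
  push_cast
  ring

lemma W_add_left {φ ψ : ℝ → ℂ} {g : ℝ → ℤ} (hg : PF g) :
    W (fun y => φ y + ψ y) g = W φ g + W ψ g := by
  classical
  set T := hg.fin.toFinset with hT
  have h1 : ∀ x ∈ T, x ∈ Set.Ico (0 : ℝ) 1 := by
    intro x hx
    rw [hT, Set.Finite.mem_toFinset] at hx
    exact hx.1
  have hgT : ∀ x ∈ Set.Ico (0 : ℝ) 1, g x ≠ 0 → x ∈ T := by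
    intro x hx h0
    rw [hT, Set.Finite.mem_toFinset]
    exact ⟨hx, h0⟩
  rw [W_eq T h1 hgT, W_eq T h1 hgT, W_eq T h1 hgT, ← Finset.sum_add_distrib]
  refine Finset.sum_congr rfl fun x _ => ?_
  ring

lemma W_smul_left {φ : ℝ → ℂ} {g : ℝ → ℤ} (hg : PF g) (c : ℂ) :
    W (fun y => c * φ y) g = c * W φ g := by
  classical
  set T := hg.fin.toFinset with hT
  have h1 : ∀ x ∈ T, x ∈ Set.Ico (0 : ℝ) 1 := by
    intro x hx
    rw [hT, Set.Finite.mem_toFinset] at hx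
    exact hx.1
  have hgT : ∀ x ∈ Set.Ico (0 : ℝ) 1, g x ≠ 0 → x ∈ T := by
    intro x hx h0
    rw [hT, Set.Finite.mem_toFinset]
    exact ⟨hx, h0⟩
  rw [W_eq T h1 hgT, W_eq T h1 hgT, Finset.mul_sum]
  refine Finset.sum_congr rfl fun x _ => ?_
  ring

lemma W_congr {φ : ℝ → ℂ} {g h : ℝ → ℤ} (e : ∀ x, g x = h x) : W φ g = W φ h := by
  have : g = h := funext e
  rw [this]

lemma W_congr_left {φ ψ : ℝ → ℂ} {g : ℝ → ℤ} (e : ∀ x, φ x = ψ x) : W φ g = W ψ g := by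
  have : φ = ψ := funext e
  rw [this]

/-- the points `(y + t) / P` -/
lemma comp_aux {g : ℝ → ℤ} (hg : PF g) {P : ℕ} (hP : 0 < P) :
    (∀ x ∈ (hg.fin.toFinset ×ˢ range P).image (fun c : ℝ × ℕ => (c.1 + c.2) / P),
      x ∈ Set.Ico (0 : ℝ) 1) ∧
    (∀ x ∈ Set.Ico (0 : ℝ) 1, g (P * x) ≠ 0 →
      x ∈ (hg.fin.toFinset ×ˢ range P).image (fun c : ℝ × ℕ => (c.1 + c.2) / P)) ∧
    Set.InjOn (fun c : ℝ × ℕ => (c.1 + c.2) / P)
      (hg.fin.toFinset ×ˢ range P : Finset (ℝ × ℕ)) := by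
  classical
  have hP' : (0 : ℝ) < P := by exact_mod_cast hP
  refine ⟨?_, ?_, ?_⟩
  · intro x hx
    rw [mem_image] at hx
    obtain ⟨⟨y, t⟩, hc, rfl⟩ := hx
    rw [mem_product, Set.Finite.mem_toFinset, mem_range] at hc
    obtain ⟨⟨hy, _⟩, ht⟩ := hc
    simp only at hy ht ⊢
    have ht' : (t : ℝ) + 1 ≤ P := by exact_mod_cast ht
    constructor
    · exact div_nonneg (add_nonneg hy.1 (Nat.cast_nonneg _)) hP'.le
    · rw [div_lt_one hP']; linarith [hy.2]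
  · intro x hx hne
    rw [mem_image]
    have h0 : 0 ≤ (P : ℝ) * x := mul_nonneg hP'.le hx.1
    have hfl : 0 ≤ ⌊(P : ℝ) * x⌋ := Int.floor_nonneg.2 h0
    obtain ⟨t, ht⟩ := Int.eq_ofNat_of_zero_le hfl
    have hft := Int.floor_add_fract ((P : ℝ) * x)
    refine ⟨(Int.fract ((P : ℝ) * x), t), ?_, ?_⟩
    · rw [mem_product, Set.Finite.mem_toFinset, mem_range]
      refine ⟨⟨⟨Int.fract_nonneg _, Int.fract_lt_one _⟩, ?_⟩, ?_⟩
      · intro h1
        apply hne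
        have h2 := hg.per (Int.fract ((P : ℝ) * x)) ⌊(P : ℝ) * x⌋
        rw [show Int.fract ((P : ℝ) * x) + (⌊(P : ℝ) * x⌋ : ℝ) = (P : ℝ) * x by linarith] at h2
        rw [h2]; exact h1
      · simp only
        have h1 : (⌊(P : ℝ) * x⌋ : ℝ) < P := by
          have := Int.floor_le ((P : ℝ) * x)
          nlinarith [hx.2]
        rw [ht] at h1
        exact_mod_cast h1
    · simp only
      rw [ht] at hft
      push_cast at hft
      rw [div_eq_iff hP'.ne']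
      linarith
  · rintro ⟨y, t⟩ hc ⟨y', t'⟩ hc' heq
    rw [Finset.mem_coe, mem_product, Set.Finite.mem_toFinset, mem_range] at hc hc'
    simp only at heq hc hc'
    rw [div_left_inj' hP'.ne'] at heq
    obtain ⟨⟨hy, _⟩, _⟩ := hc
    obtain ⟨⟨hy', _⟩, _⟩ := hc'
    have e1 : ⌊y + (t : ℝ)⌋ = t := by
      rw [Int.floor_eq_iff]; push_cast; constructor <;> linarith [hy.1, hy.2]
    have e2 : ⌊y' + (t' : ℝ)⌋ = t' := by
      rw [Int.floor_eq_iff]; push_cast; constructor <;> linarith [hy'.1, hy'.2]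
    rw [heq, e2] at e1
    have e3 : t' = t := by exact_mod_cast e1
    subst e3
    have e4 : y = y' := by linarith
    rw [e4]

lemma PF.comp {g : ℝ → ℤ} (hg : PF g) {P : ℕ} (hP : 0 < P) : PF (fun x => g (P * x)) where
  per x k := by
    have e : (P : ℝ) * (x + k) = P * x + ((P * k : ℤ) : ℝ) := by push_cast; ring
    simp only [e, hg.per]
  fin := by
    classical
    refine (Finset.finite_toSet
      ((hg.fin.toFinset ×ˢ range P).image (fun c : ℝ × ℕ => (c.1 + c.2) / P))).subset ?_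
    rintro x ⟨hx, hne⟩
    exact (comp_aux hg hP).2.1 x hx hne

lemma W_comp {φ : ℝ → ℂ} {g : ℝ → ℤ} (hg : PF g) {P : ℕ} (hP : 0 < P) :
    W φ (fun x => g (P * x)) = W (fun y => ∑ t ∈ range P, φ ((y + t) / P)) g := by
  classical
  have hP' : (P : ℝ) ≠ 0 := by exact_mod_cast hP.ne'
  obtain ⟨h1, h2, h3⟩ := comp_aux hg hP
  rw [W_eq _ h1 h2, Finset.sum_image h3, Finset.sum_product]
  rw [W_eq hg.fin.toFinset (fun x hx => by rw [Set.Finite.mem_toFinset] at hx; exact hx.1)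
    (fun x hx h0 => by rw [Set.Finite.mem_toFinset]; exact ⟨hx, h0⟩)]
  refine Finset.sum_congr rfl fun y _ => ?_
  rw [Finset.mul_sum]
  refine Finset.sum_congr rfl fun t _ => ?_
  have e : (P : ℝ) * ((y + t) / P) = y + ((t : ℤ) : ℝ) := by
    push_cast; field_simp
  simp only
  rw [e, hg.per]

/-- number of points of the support -/
noncomputable def cnt (g : ℝ → ℤ) : ℕ := {x : ℝ | x ∈ Set.Ico (0 : ℝ) 1 ∧ g x ≠ 0}.ncard

lemma cnt_comp {g : ℝ → ℤ} (hg : PF g) {P : ℕ} (hP : 0 < P) :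
    cnt (fun x => g (P * x)) = cnt g * P := by
  classical
  have hP' : (P : ℝ) ≠ 0 := by exact_mod_cast hP.ne'
  obtain ⟨h1, h2, h3⟩ := comp_aux hg hP
  have e : {x : ℝ | x ∈ Set.Ico (0 : ℝ) 1 ∧ g (P * x) ≠ 0} =
      (((hg.fin.toFinset ×ˢ range P).image (fun c : ℝ × ℕ => (c.1 + c.2) / P) : Finset ℝ) : Set ℝ) := by
    ext x
    constructor
    · rintro ⟨hx, hne⟩
      exact h2 x hx hne
    · intro hx
      refine ⟨h1 x hx, ?_⟩
      rw [Finset.mem_coe, mem_image] at hx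
      obtain ⟨⟨y, t⟩, hc, rfl⟩ := hx
      rw [mem_product, Set.Finite.mem_toFinset, mem_range] at hc
      have e : (P : ℝ) * ((y + t) / P) = y + ((t : ℤ) : ℝ) := by
        push_cast; field_simp
      simp only
      rw [e, hg.per]
      exact hc.1.2
  unfold cnt
  simp only
  rw [e, Set.ncard_coe_finset, Finset.card_image_of_injOn h3, Finset.card_product, card_range,
    Set.ncard_eq_toFinset_card _ hg.fin]

/-- the delta function of `ℝ/ℤ` at `s` -/
lemma exists_int_iff {x s : ℝ} (hx : x ∈ Set.Ico (0 : ℝ) 1) :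
    (∃ n : ℤ, x - s = n) ↔ x = Int.fract s := by
  constructor
  · rintro ⟨n, hn⟩
    have : x = s + (n : ℝ) := by linarith
    rw [← Int.fract_eq_self.2 ⟨hx.1, hx.2⟩, this, Int.fract_add_intCast]
  · intro h
    refine ⟨-⌊s⌋, ?_⟩
    have := Int.floor_add_fract s
    rw [h]; push_cast; linarith

lemma PF_J (p q : ℕ) : PF (J p q) where
  per := J_add_int p q
  fin := by
    classical
    refine (Finset.finite_toSet (((Ico 1 p) ×ˢ (Ico 1 q)).image
      (fun c : ℕ × ℕ => Int.fract ((c.1 : ℝ) / p + (c.2 : ℝ) / q)))).subset ?_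
    rintro x ⟨hx, hne⟩
    unfold J at hne
    obtain ⟨i, hi, h1⟩ := Finset.exists_ne_zero_of_sum_ne_zero hne
    obtain ⟨j, hj, h2⟩ := Finset.exists_ne_zero_of_sum_ne_zero h1
    rw [Finset.mem_coe, mem_image]
    refine ⟨(i, j), mem_product.2 ⟨hi, hj⟩, ?_⟩
    simp only
    by_contra h3
    apply h2
    rw [if_neg]
    intro h4
    exact h3 ((exists_int_iff hx).1 h4).symm

lemma W_J (φ : ℝ → ℂ) {p q : ℕ} (hp : 0 < p) (hq : 0 < q) :
    W φ (J p q) = ∑ i ∈ Ico 1 p, ∑ j ∈ Ico 1 q,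
      sgc p q i j * φ (Int.fract ((i : ℝ) / p + (j : ℝ) / q)) := by
  classical
  set T := ((Ico 1 p) ×ˢ (Ico 1 q)).image
      (fun c : ℕ × ℕ => Int.fract ((c.1 : ℝ) / p + (c.2 : ℝ) / q)) with hT
  have h1 : ∀ x ∈ T, x ∈ Set.Ico (0 : ℝ) 1 := by
    intro x hx
    rw [hT, mem_image] at hx
    obtain ⟨c, _, rfl⟩ := hx
    exact ⟨Int.fract_nonneg _, Int.fract_lt_one _⟩
  have h2 : ∀ x ∈ Set.Ico (0 : ℝ) 1, J p q x ≠ 0 → x ∈ T := by
    rintro x hx hne
    unfold J at hne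
    obtain ⟨i, hi, h1⟩ := Finset.exists_ne_zero_of_sum_ne_zero hne
    obtain ⟨j, hj, h2⟩ := Finset.exists_ne_zero_of_sum_ne_zero h1
    rw [hT, mem_image]
    refine ⟨(i, j), mem_product.2 ⟨hi, hj⟩, ?_⟩
    simp only
    by_contra h3
    apply h2
    rw [if_neg]
    intro h4
    exact h3 ((exists_int_iff hx).1 h4).symm
  rw [W_eq T h1 h2]
  unfold J
  push_cast
  simp_rw [Finset.sum_mul]
  rw [Finset.sum_comm]
  refine Finset.sum_congr rfl fun i hi => ?_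
  rw [Finset.sum_comm]
  refine Finset.sum_congr rfl fun j hj => ?_
  rw [Finset.sum_eq_single (Int.fract ((i : ℝ) / p + (j : ℝ) / q))]
  · rw [if_pos ((exists_int_iff ⟨Int.fract_nonneg _, Int.fract_lt_one _⟩).2 rfl)]
    congr 1
    unfold sgc
    by_cases hlt : (i : ℝ) / p + (j : ℝ) / q < 1
    · rw [if_pos hlt, if_pos ((lt_one_iff hp hq).1 hlt)]
    · rw [if_neg hlt, if_neg (fun h' => hlt ((lt_one_iff hp hq).2 h'))]
  · intro x hx hne
    rw [if_neg, zero_mul]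
    intro h3
    exact hne ((exists_int_iff (h1 x hx)).1 h3)
  · intro h3
    exfalso
    apply h3
    rw [hT, mem_image]
    exact ⟨(i, j), mem_product.2 ⟨hi, hj⟩, rfl⟩

end Pool.Agent.TH945.CB
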