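import Mathlib
import Pool.Agent.TH945.CB.Fun
set_option autoImplicit false

/-!
# The first moment of the jump function of a torus knot
-/

namespace Pool.Agent.TH945.CB

open Pool.Agent.TH670.KN Finset

lemma crt_sum {p q : ℕ} (hc : Nat.Coprime p q) (hp : 0 < p) (hq : 0 < q) (f : ℕ → ℂ) :
    ∑ i ∈ range p, ∑ j ∈ range q, f ((i * q + j * p) % (p * q)) = ∑ k ∈ range (p * q), f k := by
  classical
  have hinj : Set.InjOn (fun c : ℕ × ℕ => (c.1 * q + c.2 * p) % (p * q))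
      (range p ×ˢ range q : Finset (ℕ × ℕ)) := by
    rintro ⟨i, j⟩ h1 ⟨i', j'⟩ h2 heq
    rw [Finset.mem_coe, mem_product, mem_range, mem_range] at h1 h2
    simp only at h1 h2 heq
    have h3 : i * q + j * p ≡ i' * q + j' * p [MOD p * q] := heq
    have h4 : i * q ≡ i' * q [MOD p] := by
      have h5 := Nat.ModEq.of_mul_right q h3
      have h6 : j * p ≡ j' * p [MOD p] :=
        ((Nat.modEq_zero_iff_dvd).2 ⟨j, by ring⟩).trans ((Nat.modEq_zero_iff_dvd).2 ⟨j', by ring⟩).symm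
      exact Nat.ModEq.add_right_cancel h6 h5
    have h5 : j * p ≡ j' * p [MOD q] := by
      have h5 : i * q + j * p ≡ i' * q + j' * p [MOD q] := Nat.ModEq.of_mul_left p h3
      have h6 : i * q ≡ i' * q [MOD q] :=
        ((Nat.modEq_zero_iff_dvd).2 ⟨i, by ring⟩).trans ((Nat.modEq_zero_iff_dvd).2 ⟨i', by ring⟩).symm
      exact Nat.ModEq.add_left_cancel h6 h5
    have h6 : i ≡ i' [MOD p] := Nat.ModEq.cancel_right_of_coprime hc h4
    have h7 : j ≡ j' [MOD q] := Nat.ModEq.cancel_right_of_coprime hc.symm h5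
    have h8 : i % p = i' % p := h6
    have h9 : j % q = j' % q := h7
    rw [Nat.mod_eq_of_lt h1.1, Nat.mod_eq_of_lt h2.1] at h8
    rw [Nat.mod_eq_of_lt h1.2, Nat.mod_eq_of_lt h2.2] at h9
    rw [h8, h9]
  have himg : (range p ×ˢ range q).image (fun c : ℕ × ℕ => (c.1 * q + c.2 * p) % (p * q)) =
      range (p * q) := by
    apply Finset.eq_of_subset_of_card_le
    · intro x hx
      obtain ⟨c, _, rfl⟩ := Finset.mem_image.1 hx
      exact mem_range.2 (Nat.mod_lt _ (Nat.mul_pos hp hq))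
    · rw [Finset.card_image_of_injOn hinj, Finset.card_product, card_range, card_range, card_range]
  rw [← himg, Finset.sum_image hinj, Finset.sum_product]

lemma sum_id (n : ℕ) : ∑ k ∈ range n, (k : ℂ) = n * (n - 1) / 2 := by
  induction n with
  | zero => simp
  | succ n ih => rw [Finset.sum_range_succ, ih]; push_cast; ring

lemma sum_sq (n : ℕ) : ∑ k ∈ range n, (k : ℂ) ^ 2 = n * (n - 1) * (2 * n - 1) / 6 := by
  induction n with
  | zero => simp
  | succ n ih => rw [Finset.sum_range_succ, ih]; push_cast; ring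

/-- one term -/
lemma term_F {p q i j : ℕ} (hp : 0 < p) (hq : 0 < q) (hi : i < p) (hj : j < q) :
    ((p * q : ℕ) : ℂ) ^ 2 * (sgc p q i j * ((Int.fract ((i : ℝ) / p + (j : ℝ) / q) : ℝ) : ℂ)) =
      ((p * q : ℕ) : ℂ) * ((i * q + j * p : ℕ) : ℂ) - ((i * q + j * p : ℕ) : ℂ) ^ 2 +
        (((i * q + j * p) % (p * q) : ℕ) : ℂ) ^ 2 := by
  have hp' : (p : ℝ) ≠ 0 := by exact_mod_cast hp.ne'
  have hq' : (q : ℝ) ≠ 0 := by exact_mod_cast hq.ne'
  have hN : 0 < p * q := Nat.mul_pos hp hq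
  have hN' : ((p * q : ℕ) : ℝ) ≠ 0 := by exact_mod_cast hN.ne'
  have hNp : (0 : ℝ) < ((p * q : ℕ) : ℝ) := by exact_mod_cast hN
  have hs : (i : ℝ) / p + (j : ℝ) / q = ((i * q + j * p : ℕ) : ℝ) / ((p * q : ℕ) : ℝ) := by
    push_cast; field_simp
  obtain ⟨a, ha⟩ : ∃ a, a = i * q + j * p := ⟨_, rfl⟩
  obtain ⟨N, hNN⟩ : ∃ N, N = p * q := ⟨_, rfl⟩
  have ha2 : a < 2 * N := by
    have h1 : i * q ≤ p * q - q := by
      have : (i + 1) * q ≤ p * q := Nat.mul_le_mul_right q hi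
      have h2 : (i + 1) * q = i * q + q := by ring
      omega
    have h2 : j * p < p * q := by
      rw [Nat.mul_comm p q]; exact Nat.mul_lt_mul_of_pos_right hj hp
    omega
  rw [hs]
  unfold sgc
  rw [← ha, ← hNN]
  rw [← hNN] at hN
  have hNp : (0 : ℝ) < (N : ℝ) := by exact_mod_cast hN
  by_cases hlt : a < N
  · have hf : Int.fract ((a : ℝ) / N) = (a : ℝ) / N := by
      rw [Int.fract_eq_self]
      exact ⟨by positivity, by rw [div_lt_one hNp]; exact_mod_cast hlt⟩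
    rw [if_pos hlt, hf, Nat.mod_eq_of_lt hlt]
    have hNC : (N : ℂ) ≠ 0 := by exact_mod_cast hN.ne'
    push_cast
    field_simp
    ring
  · push Not at hlt
    obtain ⟨r, hr⟩ := Nat.exists_eq_add_of_le hlt
    have hrN : r < N := by omega
    have hf : Int.fract ((a : ℝ) / N) = (r : ℝ) / N := by
      have e : (a : ℝ) / N = (r : ℝ) / N + ((1 : ℤ) : ℝ) := by
        rw [hr]; push_cast; field_simp; ring
      rw [e, Int.fract_add_intCast, Int.fract_eq_self]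
      exact ⟨by positivity, by rw [div_lt_one hNp]; exact_mod_cast hrN⟩
    have hm : a % N = r := by
      rw [hr, Nat.add_mod_left, Nat.mod_eq_of_lt hrN]
    rw [if_neg (by omega), hf, hm, hr]
    have hNC : (N : ℂ) ≠ 0 := by exact_mod_cast hN.ne'
    push_cast
    field_simp
    ring

lemma sum_Ico_one {n : ℕ} (hn : 0 < n) (f : ℕ → ℂ) :
    ∑ k ∈ Ico 1 n, f k = ∑ k ∈ range n, f k - f 0 := by
  rw [Finset.range_eq_Ico, Finset.sum_eq_sum_Ico_succ_bot hn]
  ring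

/-- The first moment of the jump function of `T(p,q)`. -/
theorem moment_J {p q : ℕ} (hc : Nat.Coprime p q) (hp : 0 < p) (hq : 0 < q) :
    W (fun x => (x : ℂ)) (J p q) = ((p : ℂ) ^ 2 - 1) * ((q : ℂ) ^ 2 - 1) / (6 * (p * q)) := by
  have hpC : (p : ℂ) ≠ 0 := by exact_mod_cast hp.ne'
  have hqC : (q : ℂ) ≠ 0 := by exact_mod_cast hq.ne'
  rw [W_J _ hp hq]
  have key : ((p * q : ℕ) : ℂ) ^ 2 * ∑ i ∈ Ico 1 p, ∑ j ∈ Ico 1 q,
      sgc p q i j * ((Int.fract ((i : ℝ) / p + (j : ℝ) / q) : ℝ) : ℂ) =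
      (p : ℂ) * q * (((p : ℂ) ^ 2 - 1) * ((q : ℂ) ^ 2 - 1)) / 6 := by
    rw [Finset.mul_sum]
    have e1 : ∀ i ∈ Ico 1 p, ((p * q : ℕ) : ℂ) ^ 2 * ∑ j ∈ Ico 1 q,
        sgc p q i j * ((Int.fract ((i : ℝ) / p + (j : ℝ) / q) : ℝ) : ℂ) =
        ∑ j ∈ Ico 1 q, (((p * q : ℕ) : ℂ) * ((i * q + j * p : ℕ) : ℂ) -
          ((i * q + j * p : ℕ) : ℂ) ^ 2 + (((i * q + j * p) % (p * q) : ℕ) : ℂ) ^ 2) := by
      intro i hi
      rw [Finset.mul_sum]
      refine Finset.sum_congr rfl fun j hj => ?_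
      rw [mem_Ico] at hi hj
      exact term_F hp hq hi.2 hj.2
    rw [Finset.sum_congr rfl e1]
    have e2 : ∀ i ∈ Ico 1 p, ∑ j ∈ Ico 1 q, (((p * q : ℕ) : ℂ) * ((i * q + j * p : ℕ) : ℂ) -
          ((i * q + j * p : ℕ) : ℂ) ^ 2 + (((i * q + j * p) % (p * q) : ℕ) : ℂ) ^ 2) =
        ∑ j ∈ range q, (((p * q : ℕ) : ℂ) * ((i * q + j * p : ℕ) : ℂ) -
          ((i * q + j * p : ℕ) : ℂ) ^ 2 + (((i * q + j * p) % (p * q) : ℕ) : ℂ) ^ 2) -
          (p : ℂ) * q * q * i := by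
      intro i hi
      rw [mem_Ico] at hi
      rw [sum_Ico_one hq]
      congr 1
      have : (i * q + 0 * p) % (p * q) = i * q := by
        rw [zero_mul, add_zero]
        exact Nat.mod_eq_of_lt (Nat.mul_lt_mul_of_pos_right hi.2 hq)
      rw [this]
      push_cast
      ring
    rw [Finset.sum_congr rfl e2, Finset.sum_sub_distrib, sum_Ico_one hp, sum_Ico_one hp]
    have e3 : ∀ j ∈ range q, (((p * q : ℕ) : ℂ) * ((0 * q + j * p : ℕ) : ℂ) -
          ((0 * q + j * p : ℕ) : ℂ) ^ 2 + (((0 * q + j * p) % (p * q) : ℕ) : ℂ) ^ 2) =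
          (p : ℂ) * q * p * j := by
      intro j hj
      rw [mem_range] at hj
      have : (0 * q + j * p) % (p * q) = j * p := by
        rw [zero_mul, zero_add]
        apply Nat.mod_eq_of_lt
        rw [Nat.mul_comm p q]
        exact Nat.mul_lt_mul_of_pos_right hj hp
      rw [this]
      push_cast
      ring
    rw [Finset.sum_congr rfl e3, ← Finset.mul_sum, ← Finset.mul_sum, sum_id, sum_id]
    have e4 : ∑ i ∈ range p, ∑ j ∈ range q, (((p * q : ℕ) : ℂ) * ((i * q + j * p : ℕ) : ℂ) -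
          ((i * q + j * p : ℕ) : ℂ) ^ 2 + (((i * q + j * p) % (p * q) : ℕ) : ℂ) ^ 2) =
          ∑ i ∈ range p, ∑ j ∈ range q, (((p * q : ℕ) : ℂ) * ((i * q + j * p : ℕ) : ℂ) -
          ((i * q + j * p : ℕ) : ℂ) ^ 2) +
          ∑ i ∈ range p, ∑ j ∈ range q, (((i * q + j * p) % (p * q) : ℕ) : ℂ) ^ 2 := by
      simp_rw [← Finset.sum_add_distrib]
    rw [e4, crt_sum hc hp hq (fun k => (k : ℂ) ^ 2), sum_sq]
    have e5 : ∀ i ∈ range p, ∑ j ∈ range q, (((p * q : ℕ) : ℂ) * ((i * q + j * p : ℕ) : ℂ) -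
          ((i * q + j * p : ℕ) : ℂ) ^ 2) =
          ((p : ℂ) * q * q * q - 2 * q * p * (q * (q - 1) / 2)) * i - (q : ℂ) * q ^ 2 * (i : ℂ) ^ 2 +
          (p : ℂ) * q * p * (q * (q - 1) / 2) - (p : ℂ) ^ 2 * (q * (q - 1) * (2 * q - 1) / 6) := by
      intro i _
      have e6 : ∀ j ∈ range q, (((p * q : ℕ) : ℂ) * ((i * q + j * p : ℕ) : ℂ) -
          ((i * q + j * p : ℕ) : ℂ) ^ 2) =
          ((p : ℂ) * q * q * i - (q : ℂ) ^ 2 * (i : ℂ) ^ 2) + ((p : ℂ) * q * p - 2 * q * p * i) * j -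
            (p : ℂ) ^ 2 * (j : ℂ) ^ 2 := by
        intro j _
        push_cast
        ring
      rw [Finset.sum_congr rfl e6, Finset.sum_sub_distrib, Finset.sum_add_distrib, ← Finset.mul_sum,
        ← Finset.mul_sum, sum_id, sum_sq, Finset.sum_const, card_range, nsmul_eq_mul]
      ring
    rw [Finset.sum_congr rfl e5]
    simp only [Finset.sum_sub_distrib, Finset.sum_add_distrib, ← Finset.mul_sum, sum_id, sum_sq,
      Finset.sum_const, card_range, nsmul_eq_mul]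
    push_cast
    ring
  have hN2 : ((p * q : ℕ) : ℂ) ^ 2 ≠ 0 := by
    push_cast
    exact pow_ne_zero 2 (mul_ne_zero hpC hqC)
  apply mul_left_cancel₀ hN2
  rw [key]
  push_cast
  field_simp

end Pool.Agent.TH945.CB
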