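import Mathlib
import Pool.Agent.TH945.CB.Ded
set_option autoImplicit false

/-!
# Iterated cables of a knot with given jump function: the classification
-/

namespace Pool.Agent.TH945.CB

open Pool.Agent.TH670.KN Finset

/-- The jump function of the iterated cable with parameters `L` of a companion with jump function
`j`. -/
noncomputable def A (j : ℝ → ℤ) : List (ℕ × ℕ) → ℝ → ℤ
  | [], x => j x
  | (p, q) :: L, x => 2 * J p q x + A j L (p * x)

lemma PF_A {j : ℝ → ℤ} (hj : PF j) {L : List (ℕ × ℕ)} (hL : Good L) : PF (A j L) := by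
  induction L with
  | nil => exact hj
  | cons c L ih =>
    obtain ⟨p, q⟩ := c
    have hp : 0 < p := by have := (hL (p, q) (by simp)).2.1; simp only at this; omega
    exact ((PF_J p q).smul 2).add ((ih (good_tail hL)).comp hp)

/-- the Fourier coefficient -/
noncomputable def F (n : ℕ) (g : ℝ → ℤ) : ℂ := W (fun x => ee ((n : ℝ) * x)) g

lemma F_congr {g h : ℝ → ℤ} (e : ∀ x, g x = h x) (n : ℕ) : F n g = F n h := W_congr e

lemma F_comp {g : ℝ → ℤ} (hg : PF g) {P : ℕ} (hP : 0 < P) (n : ℕ) :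
    F n (fun x => g (P * x)) = if P ∣ n then (P : ℂ) * F (n / P) g else 0 := by
  have hP' : (P : ℝ) ≠ 0 := by exact_mod_cast hP.ne'
  unfold F
  rw [W_comp hg hP]
  have e1 : ∀ y : ℝ, ∑ t ∈ range P, ee ((n : ℝ) * ((y + t) / P)) =
      (if P ∣ n then (P : ℂ) else 0) * ee ((n : ℝ) * (y / P)) := by
    intro y
    rw [← sum_ee_range hP n, Finset.sum_mul]
    refine Finset.sum_congr rfl fun t _ => ?_
    rw [← ee_add]
    congr 1
    field_simp
    ring
  rw [W_congr_left e1, W_smul_left hg]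
  by_cases hd : P ∣ n
  · rw [if_pos hd, if_pos hd]
    congr 1
    apply W_congr_left
    intro y
    obtain ⟨c, rfl⟩ := hd
    rw [Nat.mul_div_cancel_left _ hP]
    congr 1
    push_cast
    field_simp
  · rw [if_neg hd, if_neg hd, zero_mul]

lemma F_J {p q : ℕ} (hp : 0 < p) (hq : 0 < q) (n : ℕ) : F n (J p q) = G p q n := by
  unfold F
  rw [W_J _ hp hq]
  unfold G
  refine Finset.sum_congr rfl fun i _ => Finset.sum_congr rfl fun j _ => ?_
  congr 1
  rw [ee_eq_iff]
  refine ⟨-((n : ℤ) * ⌊(i : ℝ) / p + (j : ℝ) / q⌋), ?_⟩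
  have := Int.floor_add_fract ((i : ℝ) / p + (j : ℝ) / q)
  push_cast
  linear_combination (n : ℝ) * this

lemma F_cons {j : ℝ → ℤ} (hj : PF j) {p q : ℕ} {L : List (ℕ × ℕ)} (hL : Good ((p, q) :: L))
    (n : ℕ) : F n (A j ((p, q) :: L)) =
      2 * G p q n + if p ∣ n then (p : ℂ) * F (n / p) (A j L) else 0 := by
  have hp : 0 < p := by have := (hL (p, q) (by simp)).2.1; simp only at this; omega
  have hq : 0 < q := by have := (hL (p, q) (by simp)).2.2; simp only at this; omega
  have h1 : F n (A j ((p, q) :: L)) = F n (fun x => 2 * J p q x) + F n (fun x => A j L (p * x)) :=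
    W_add ((PF_J p q).smul 2) ((PF_A hj (good_tail hL)).comp hp)
  rw [h1, F_comp (PF_A hj (good_tail hL)) hp]
  congr 1
  have h2 : F n (fun x => 2 * J p q x) = ((2 : ℤ) : ℂ) * F n (J p q) := W_smul (PF_J p q) 2
  rw [h2, F_J hp hq]
  push_cast
  rfl

/-- The first Fourier coefficient. -/
lemma F_one {j : ℝ → ℤ} (hj : PF j) {p q : ℕ} {L : List (ℕ × ℕ)} (hL : Good ((p, q) :: L)) :
    6 ≤ p * q ∧ F 1 (A j ((p, q) :: L)) = 2 * mo (ee ((1 : ℝ) / ((p * q : ℕ) : ℝ))) := by
  obtain ⟨hc, hp, hq⟩ := hL (p, q) (by simp)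
  simp only at hc hp hq
  refine ⟨?_, ?_⟩
  · have hne : p ≠ q := by
      rintro rfl
      rw [Nat.coprime_self] at hc; omega
    rcases Nat.lt_or_gt_of_ne hne with h | h
    · calc 6 = 2 * 3 := rfl
        _ ≤ p * q := Nat.mul_le_mul hp (by omega)
    · calc 6 = 3 * 2 := rfl
        _ ≤ p * q := Nat.mul_le_mul (by omega) hq
  · rw [F_cons hj hL, if_neg (by rw [Nat.dvd_one]; omega), add_zero,
      G_formula hc (by omega) (by omega) (by rw [Nat.dvd_one]; omega),
      if_neg (by rw [Nat.dvd_one]; omega), sub_zero]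
    unfold mo
    push_cast
    rfl

/-- the mass -/
noncomputable def M (g : ℝ → ℤ) : ℂ := W (fun _ => 1) g

lemma M_comp {g : ℝ → ℤ} (hg : PF g) {P : ℕ} (hP : 0 < P) :
    M (fun x => g (P * x)) = P * M g := by
  unfold M
  rw [W_comp hg hP]
  have e : ∀ y : ℝ, ∑ t ∈ range P, (1 : ℂ) = (P : ℂ) * 1 := by
    intro y; simp
  rw [W_congr_left e, W_smul_left hg]

lemma M_J {p q : ℕ} (hc : Nat.Coprime p q) (hp : 0 < p) (hq : 0 < q) : M (J p q) = 0 := by
  unfold M
  rw [W_J _ hp hq]
  have h := sum_sg hc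
  have h2 : ((∑ i ∈ Ico 1 p, ∑ j ∈ Ico 1 q, sg ((i : ℝ) / p + (j : ℝ) / q) : ℝ) : ℂ) = 0 := by
    rw [h]; simp
  rw [← h2]
  push_cast
  refine Finset.sum_congr rfl fun i _ => Finset.sum_congr rfl fun j _ => ?_
  unfold sgc sg
  by_cases hlt : (i : ℝ) / p + (j : ℝ) / q < 1
  · rw [if_pos hlt, if_pos ((lt_one_iff hp hq).1 hlt)]; simp
  · rw [if_neg hlt, if_neg (fun h' => hlt ((lt_one_iff hp hq).2 h'))]; simp

lemma M_A {j : ℝ → ℤ} (hj : PF j) (hM : M j = 0) {L : List (ℕ × ℕ)} (hL : Good L) :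
    M (A j L) = 0 := by
  induction L with
  | nil => exact hM
  | cons c L ih =>
    obtain ⟨p, q⟩ := c
    obtain ⟨hc, hp, hq⟩ := hL (p, q) (by simp)
    simp only at hc hp hq
    have h1 : M (A j ((p, q) :: L)) = M (fun x => 2 * J p q x) + M (fun x => A j L (p * x)) :=
      W_add ((PF_J p q).smul 2) ((PF_A hj (good_tail hL)).comp (by omega))
    have h2 : M (fun x => 2 * J p q x) = ((2 : ℤ) : ℂ) * M (J p q) := W_smul (PF_J p q) 2
    rw [h1, h2, M_J hc (by omega) (by omega), M_comp (PF_A hj (good_tail hL)) (by omega),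
      ih (good_tail hL)]
    simp

/-- the first moment -/
noncomputable def S (g : ℝ → ℤ) : ℂ := W (fun x => (x : ℂ)) g

lemma S_comp {g : ℝ → ℤ} (hg : PF g) (hM : M g = 0) {P : ℕ} (hP : 0 < P) :
    S (fun x => g (P * x)) = S g := by
  have hP' : (P : ℂ) ≠ 0 := by exact_mod_cast hP.ne'
  unfold S
  rw [W_comp hg hP]
  have e : ∀ y : ℝ, ∑ t ∈ range P, (((y + t) / P : ℝ) : ℂ) =
      (y : ℂ) + (((P : ℂ) - 1) / 2) * (fun _ => (1 : ℂ)) y := by
    intro y
    have e1 : ∀ t ∈ range P, (((y + t) / P : ℝ) : ℂ) = (y : ℂ) / P + 1 / P * (t : ℂ) := by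
      intro t _
      push_cast
      ring
    rw [Finset.sum_congr rfl e1, Finset.sum_add_distrib, ← Finset.mul_sum, sum_id,
      Finset.sum_const, card_range, nsmul_eq_mul]
    field_simp
  rw [W_congr_left e, W_add_left hg, W_smul_left hg]
  have h2 : W (fun _ => (1 : ℂ)) g = 0 := hM
  rw [h2]; ring

/-- the contribution of the cablings to the first moment -/
noncomputable def tt : List (ℕ × ℕ) → ℝ
  | [] => 0
  | (p, q) :: L => ((p : ℝ) ^ 2 - 1) * ((q : ℝ) ^ 2 - 1) / (3 * (p * q)) + tt L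

lemma S_A {j : ℝ → ℤ} (hj : PF j) (hM : M j = 0) {L : List (ℕ × ℕ)} (hL : Good L) :
    S (A j L) = (tt L : ℂ) + S j := by
  induction L with
  | nil => simp [A, tt]
  | cons c L ih =>
    obtain ⟨p, q⟩ := c
    obtain ⟨hc, hp, hq⟩ := hL (p, q) (by simp)
    simp only at hc hp hq
    have h1 : S (A j ((p, q) :: L)) = S (fun x => 2 * J p q x) + S (fun x => A j L (p * x)) :=
      W_add ((PF_J p q).smul 2) ((PF_A hj (good_tail hL)).comp (by omega))
    have h2 : S (fun x => 2 * J p q x) = ((2 : ℤ) : ℂ) * S (J p q) := W_smul (PF_J p q) 2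
    have h3 : S (J p q) = ((p : ℂ) ^ 2 - 1) * ((q : ℂ) ^ 2 - 1) / (6 * (p * q)) :=
      moment_J hc (by omega) (by omega)
    rw [h1, h2, h3, S_comp (PF_A hj (good_tail hL)) (M_A hj hM (good_tail hL)) (by omega),
      ih (good_tail hL)]
    have hpC : (p : ℂ) ≠ 0 := by exact_mod_cast (by omega : p ≠ 0)
    have hqC : (q : ℂ) ≠ 0 := by exact_mod_cast (by omega : q ≠ 0)
    simp only [tt]
    push_cast
    field_simp
    ring

lemma tt_term_pos {p q : ℕ} (hp : 2 ≤ p) (hq : 2 ≤ q) :
    0 < ((p : ℝ) ^ 2 - 1) * ((q : ℝ) ^ 2 - 1) / (3 * (p * q)) := by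
  have hp' : (2 : ℝ) ≤ p := by exact_mod_cast hp
  have hq' : (2 : ℝ) ≤ q := by exact_mod_cast hq
  apply div_pos
  · apply mul_pos <;> nlinarith
  · positivity

lemma tt_nonneg {L : List (ℕ × ℕ)} (hL : Good L) : 0 ≤ tt L := by
  induction L with
  | nil => exact le_refl _
  | cons c L ih =>
    obtain ⟨p, q⟩ := c
    obtain ⟨_, hp, hq⟩ := hL (p, q) (by simp)
    have := tt_term_pos hp hq
    simp only [tt]
    have := ih (good_tail hL)
    simp only at *
    linarith

lemma tt_pos {c : ℕ × ℕ} {L : List (ℕ × ℕ)} (hL : Good (c :: L)) : 0 < tt (c :: L) := by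
  obtain ⟨p, q⟩ := c
  obtain ⟨_, hp, hq⟩ := hL (p, q) (by simp)
  have := tt_term_pos hp hq
  have := tt_nonneg (good_tail hL)
  simp only [tt]
  simp only at *
  linarith

lemma tt_eq {j : ℝ → ℤ} (hj : PF j) (hM : M j = 0) {L L' : List (ℕ × ℕ)} (hL : Good L)
    (hL' : Good L') (heq : ∀ x, A j L x = A j L' x) : tt L = tt L' := by
  have h1 : S (A j L) = S (A j L') := W_congr heq
  rw [S_A hj hM hL, S_A hj hM hL'] at h1
  have h2 := add_right_cancel h1
  exact_mod_cast h2

/-- The crucial case. -/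
lemma key {j : ℝ → ℤ} (hj : PF j) (hM : M j = 0) {p q p' q' : ℕ} {L L' : List (ℕ × ℕ)}
    (hL : Good ((p, q) :: L)) (hL' : Good ((p', q') :: L'))
    (heq : ∀ x, A j ((p, q) :: L) x = A j ((p', q') :: L') x)
    (hn : p * q = p' * q') (hlt : q < q') : p = q' ∧ q = p' ∧ L = [] ∧ L' = [] := by
  obtain ⟨hc, hp, hq⟩ := hL (p, q) (by simp)
  obtain ⟨hc', hp', hq'⟩ := hL' (p', q') (by simp)
  simp only at hc hp hq hc' hp' hq'
  have hLg : Good L := good_tail hL
  have hLg' : Good L' := good_tail hL'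
  have FF : ∀ h : ℕ, 2 * G p q h + (if p ∣ h then (p : ℂ) * F (h / p) (A j L) else 0) =
      2 * G p' q' h + (if p' ∣ h then (p' : ℂ) * F (h / p') (A j L') else 0) := by
    intro h
    rw [← F_cons hj hL h, ← F_cons hj hL' h]
    exact F_congr heq _
  have hpq : ¬ p ∣ q := by
    intro h
    have h2 : Nat.gcd p q = p := Nat.gcd_eq_left h
    rw [hc] at h2; omega
  have hqp : ¬ q ∣ p := by
    intro h
    have h2 : Nat.gcd p q = q := Nat.gcd_eq_right h
    rw [hc] at h2; omega
  have hpq' : ¬ p' ∣ q' := by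
    intro h
    have h2 : Nat.gcd p' q' = p' := Nat.gcd_eq_left h
    rw [hc'] at h2; omega
  have hqp' : ¬ q' ∣ p' := by
    intro h
    have h2 : Nat.gcd p' q' = q' := Nat.gcd_eq_right h
    rw [hc'] at h2; omega
  have hq'q : ¬ q' ∣ q := fun h => by have := Nat.le_of_dvd (by omega) h; omega
  have hncast : (p : ℝ) * q = p' * q' := by exact_mod_cast hn
  have nil_of : ∀ K : List (ℕ × ℕ), Good K → F 1 (A j K) = 0 → K = [] := by
    intro K hK h0
    rcases K with _ | ⟨⟨a, b⟩, K⟩
    · rfl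
    · exfalso
      obtain ⟨h1, h2⟩ := F_one hj hK
      rw [h0] at h2
      exact first_ne_zero h1 (by linear_combination (-1 / 2 : ℂ) * h2)
  by_cases hp'q : p' ∣ q
  · obtain ⟨c, hcq⟩ := hp'q
    have hq'c : q' = p * c := by
      have h1 : p' * (p * c) = p' * q' := by rw [← hn, hcq]; ring
      exact (Nat.eq_of_mul_eq_mul_left (by omega) h1).symm
    by_cases hc1 : c = 1
    · subst hc1
      rw [mul_one] at hcq hq'c
      subst hcq
      subst hq'c
      refine ⟨rfl, rfl, ?_, ?_⟩
      · have h1 := FF q'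
        rw [G_swap q' q, if_pos (dvd_refl _), if_neg hqp, Nat.div_self (by omega), add_zero,
          add_eq_left, mul_eq_zero] at h1
        rcases h1 with h1 | h1
        · exfalso; have : q' = 0 := by exact_mod_cast h1
          omega
        · exact nil_of L hLg h1
      · have h1 := FF q
        rw [G_swap q' q, if_pos (dvd_refl _), if_neg hpq, Nat.div_self (by omega), add_zero,
          left_eq_add, mul_eq_zero] at h1
        rcases h1 with h1 | h1
        · exfalso; have : q = 0 := by exact_mod_cast h1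
          omega
        · exact nil_of L' hLg' h1
    · exfalso
      have hc0 : c ≠ 0 := by rintro rfl; omega
      have hc2 : 2 ≤ c := by omega
      have hp'lt : p' < q := by rw [hcq]; nlinarith
      have hp'p : p' < p := by
        by_contra hge
        push Not at hge
        have : q' ≤ q := by rw [hq'c, hcq]; exact Nat.mul_le_mul_right c hge
        omega
      rcases L' with _ | ⟨⟨a, b⟩, L'⟩
      · -- compare the first moments
        have ht := tt_eq hj hM hL hL' heq
        simp only [tt] at ht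
        have ht0 := tt_nonneg hLg
        have e1 : (3 : ℝ) * (p' * q') = 3 * (p * q) := by rw [hncast]
        rw [e1, add_zero] at ht
        have hpos : (0 : ℝ) < 3 * (p * q) := by
          have : (0 : ℝ) < p := by exact_mod_cast (by omega : 0 < p)
          have : (0 : ℝ) < q := by exact_mod_cast (by omega : 0 < q)
          positivity
        have h1 : ((p : ℝ) ^ 2 - 1) * ((q : ℝ) ^ 2 - 1) / (3 * (p * q)) ≤
            ((p' : ℝ) ^ 2 - 1) * ((q' : ℝ) ^ 2 - 1) / (3 * (p * q)) := by linarith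
        rw [div_le_div_iff_of_pos_right hpos] at h1
        have h2 : (q : ℝ) = p' * c := by exact_mod_cast hcq
        have h3 : (q' : ℝ) = p * c := by exact_mod_cast hq'c
        rw [h2, h3] at h1
        have h4 : (p' : ℝ) < p := by exact_mod_cast hp'p
        have h5 : (2 : ℝ) ≤ c := by exact_mod_cast hc2
        have h6 : (0 : ℝ) < p' := by exact_mod_cast (by omega : 0 < p')
        have h7 : (0 : ℝ) < ((p : ℝ) ^ 2 - p' ^ 2) * ((c : ℝ) ^ 2 - 1) := by
          apply mul_pos <;> nlinarith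
        nlinarith
      · have hqp'd : ¬ q ∣ p' := fun h => by have := Nat.le_of_dvd (by omega) h; omega
        have hpp' : ¬ p ∣ p' := by
          intro h
          have h1 : p ∣ q := h.trans ⟨c, hcq⟩
          exact hpq h1
        have h1 := FF p'
        rw [if_neg hpp', add_zero, if_pos (dvd_refl _), Nat.div_self (by omega),
          G_formula hc (by omega) (by omega) hqp'd, if_neg hpp', sub_zero,
          G_formula hc' (by omega) (by omega) hqp', if_pos (dvd_refl _), hncast] at h1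
        have hp'0 : (p' : ℂ) ≠ 0 := by exact_mod_cast (by omega : p' ≠ 0)
        obtain ⟨h3a, h3b⟩ := F_one hj hLg'
        have h2 : mo (ee ((1 : ℝ) / ((a * b : ℕ) : ℝ))) = mo (ee ((p' : ℝ) / q')) := by
          rw [h3b] at h1
          unfold mo at h1 ⊢
          apply mul_left_cancel₀ hp'0
          linear_combination (-1 / 2 : ℂ) * h1
        have hv1 : ee ((p' : ℝ) / q') ≠ 1 := ee_ne_one (by omega) hqp'
        have hu1 : ee ((1 : ℝ) / ((a * b : ℕ) : ℝ)) ≠ 1 := ee_first h3a
        have h4 := mo_inj hu1 hv1 h2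
        rw [ee_eq_iff] at h4
        obtain ⟨m, hm⟩ := h4
        obtain ⟨H, hH⟩ : ∃ H, H = a * b := ⟨_, rfl⟩
        rw [← hH] at hm h3a
        have hq0 : (q' : ℝ) ≠ 0 := by exact_mod_cast (by omega : q' ≠ 0)
        have hh0 : (H : ℝ) ≠ 0 := by exact_mod_cast (by omega : H ≠ 0)
        have h5 : (q' : ℝ) - p' * H = m * (H * q') := by
          rw [← hm]; field_simp
        have h6 : (q' : ℤ) - p' * H = m * (H * q') := by exact_mod_cast h5
        have h7 : (q' : ℤ) ∣ (p' : ℤ) * H := ⟨1 - m * H, by linear_combination -h6⟩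
        have h8 : (H : ℤ) ∣ (q' : ℤ) := ⟨p' + m * q', by linear_combination h6⟩
        have h7' : q' ∣ p' * H := by exact_mod_cast h7
        have h8' : H ∣ q' := by exact_mod_cast h8
        have h9 : q' ∣ H := (Nat.Coprime.symm hc').dvd_of_dvd_mul_left h7'
        have h10 : H = q' := Nat.dvd_antisymm h8' h9
        rw [h10] at h6
        have h11 : (q' : ℤ) * (1 - p') = q' * (m * q') := by linear_combination h6
        have hq0' : (q' : ℤ) ≠ 0 := by exact_mod_cast (by omega : q' ≠ 0)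
        have h12 : (1 : ℤ) - p' = m * q' := mul_left_cancel₀ hq0' h11
        have h13 : (q' : ℤ) ∣ ((p' - 1 : ℕ) : ℤ) := by
          rw [Nat.cast_sub (by omega)]
          exact ⟨-m, by push_cast; linear_combination -h12⟩
        have h14 : q' ∣ p' - 1 := by exact_mod_cast h13
        have := Nat.le_of_dvd (by omega) h14
        omega
  · exfalso
    have h1 := FF q
    rw [if_neg hpq, add_zero, if_neg hp'q, add_zero, G_swap p q,
      G_formula (Nat.Coprime.symm hc) (by omega) (by omega) hpq, if_pos (dvd_refl _),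
      G_formula hc' (by omega) (by omega) hq'q, if_neg hp'q, sub_zero] at h1
    have e1 : (q : ℝ) * p = p' * q' := by rw [mul_comm]; exact hncast
    rw [e1] at h1
    have hq0 : (q : ℂ) ≠ 0 := by exact_mod_cast (by omega : q ≠ 0)
    have h2 : mo (ee ((q : ℝ) / p)) = 0 := by
      unfold mo
      apply mul_left_cancel₀ hq0
      linear_combination (-1 / 2 : ℂ) * h1
    have h3 := ee_neg_one (by omega) (mo_zero (ee_ne_one (by omega) hpq) h2)
    have h4 : p ∣ 2 := hc.dvd_of_dvd_mul_right h3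
    have h5 := Nat.le_of_dvd (by omega) h4
    have h6 : p = 2 := by omega
    subst h6
    nlinarith

lemma zero_of_swap {j : ℝ → ℤ} (hj : PF j) {p q : ℕ} (hp : 0 < p) (hq : 0 < q) (hne : p ≠ q)
    (h : ∀ x, j (p * x) = j (q * x)) (x : ℝ) : j x = 0 := by
  have h1 := cnt_comp hj hp
  have h2 := cnt_comp hj hq
  have h3 : cnt (fun x => j (p * x)) = cnt (fun x => j (q * x)) := by
    have : (fun x : ℝ => j (p * x)) = fun x => j (q * x) := funext h
    rw [this]
  rw [h1, h2] at h3
  have h4 : cnt j = 0 := by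
    by_contra h5
    exact hne (Nat.eq_of_mul_eq_mul_left (Nat.pos_of_ne_zero h5) h3)
  unfold cnt at h4
  rw [Set.ncard_eq_zero hj.fin] at h4
  by_contra h5
  have h6 := hj.per (Int.fract x) ⌊x⌋
  have h7 := Int.floor_add_fract x
  rw [show Int.fract x + (⌊x⌋ : ℝ) = x by linarith] at h6
  have h8 : Int.fract x ∈ {x : ℝ | x ∈ Set.Ico (0 : ℝ) 1 ∧ j x ≠ 0} :=
    ⟨⟨Int.fract_nonneg _, Int.fract_lt_one _⟩, by rw [← h6]; exact h5⟩
  rw [h4] at h8
  exact h8

/-- The classification of iterated cables by their jump functions. -/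
theorem classify {j : ℝ → ℤ} (hj : PF j) (hM : M j = 0) : ∀ (L L' : List (ℕ × ℕ)), Good L →
    Good L' → (∀ x, A j L x = A j L' x) →
    L = L' ∨ ((∃ (K : List (ℕ × ℕ)) (p q : ℕ), L = K ++ [(p, q)] ∧ L' = K ++ [(q, p)]) ∧
      ∀ x, j x = 0) := by
  intro L
  induction L with
  | nil =>
    intro L' hL hL' heq
    rcases L' with _ | ⟨c', L'⟩
    · exact Or.inl rfl
    · exfalso
      have h1 := tt_eq hj hM hL hL' heq
      have h2 := tt_pos hL'
      rw [← h1] at h2
      simp [tt] at h2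
  | cons c L ih =>
    intro L' hL hL' heq
    rcases L' with _ | ⟨c', L'⟩
    · exfalso
      have h1 := tt_eq hj hM hL hL' heq
      have h2 := tt_pos hL
      rw [h1] at h2
      simp [tt] at h2
    · obtain ⟨p, q⟩ := c
      obtain ⟨p', q'⟩ := c'
      have hg := hL (p, q) (by simp)
      have hg' := hL' (p', q') (by simp)
      simp only at hg hg'
      have hn : p * q = p' * q' := by
        obtain ⟨h1a, h1b⟩ := F_one hj hL
        obtain ⟨h2a, h2b⟩ := F_one hj hL'
        have h3 : mo (ee ((1 : ℝ) / ((p * q : ℕ) : ℝ))) = mo (ee ((1 : ℝ) / ((p' * q' : ℕ) : ℝ))) := by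
          have h4 := F_congr heq 1
          rw [h1b, h2b] at h4
          exact mul_left_cancel₀ two_ne_zero h4
        have a1 : ee ((1 : ℝ) / ((p * q : ℕ) : ℝ)) ≠ 1 := ee_first h1a
        have a2 : ee ((1 : ℝ) / ((p' * q' : ℕ) : ℝ)) ≠ 1 := ee_first h2a
        have h4 := mo_inj a1 a2 h3
        rw [ee_eq_iff] at h4
        obtain ⟨m, hm⟩ := h4
        have b1 : (6 : ℝ) ≤ ((p * q : ℕ) : ℝ) := by exact_mod_cast h1a
        have b2 : (6 : ℝ) ≤ ((p' * q' : ℕ) : ℝ) := by exact_mod_cast h2a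
        have c1 : (1 : ℝ) / ((p * q : ℕ) : ℝ) ≤ 1 / 6 := one_div_le_one_div_of_le (by norm_num) b1
        have c2 : (1 : ℝ) / ((p' * q' : ℕ) : ℝ) ≤ 1 / 6 := one_div_le_one_div_of_le (by norm_num) b2
        have c3 : (0 : ℝ) < 1 / ((p * q : ℕ) : ℝ) := by positivity
        have c4 : (0 : ℝ) < 1 / ((p' * q' : ℕ) : ℝ) := by positivity
        have d1 : (m : ℝ) < 1 := by linarith
        have d2 : (-1 : ℝ) < m := by linarith
        have e1 : m < 1 := by exact_mod_cast d1
        have e2 : -1 < m := by exact_mod_cast d2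
        have e3 : m = 0 := by omega
        rw [e3, Int.cast_zero, sub_eq_zero] at hm
        have f1 : ((p * q : ℕ) : ℝ) = ((p' * q' : ℕ) : ℝ) := by
          have := congrArg (fun t : ℝ => 1 / t) hm
          simpa using this
        exact_mod_cast f1
      have swap : ∀ a b : ℕ, 2 ≤ a → 2 ≤ b → a ≠ b →
          (∀ x, A j [(a, b)] x = A j [(b, a)] x) → ∀ x, j x = 0 := by
        intro a b ha hb hne h x
        apply zero_of_swap hj (p := a) (q := b) (by omega) (by omega) hne
        intro y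
        have h1 := h y
        simp only [A] at h1
        rw [J_swap b a] at h1
        exact add_left_cancel h1
      rcases Nat.lt_trichotomy q q' with h | h | h
      · obtain ⟨h1, h2, h3, h4⟩ := key hj hM hL hL' heq hn h
        subst h1; subst h2; subst h3; subst h4
        exact Or.inr ⟨⟨[], _, _, rfl, rfl⟩, swap _ _ hg.2.1 hg.2.2 (by omega) heq⟩
      · subst h
        have h1 : p = p' := Nat.eq_of_mul_eq_mul_right (by omega) hn
        subst h1
        have h3 : ∀ x, A j L x = A j L' x := by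
          intro y
          have h2 := heq (y / p)
          simp only [A] at h2
          have hp0 : (p : ℝ) ≠ 0 := by exact_mod_cast (by omega : p ≠ 0)
          rw [mul_div_cancel₀ y hp0] at h2
          omega
        rcases ih L' (good_tail hL) (good_tail hL') h3 with h4 | ⟨⟨K, a, b, h4, h5⟩, h6⟩
        · exact Or.inl (by rw [h4])
        · exact Or.inr ⟨⟨(p, q) :: K, a, b, by simp [h4], by simp [h5]⟩, h6⟩
      · obtain ⟨h1, h2, h3, h4⟩ := key hj hM hL' hL (fun x => (heq x).symm) hn.symm h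
        subst h1; subst h2; subst h3; subst h4
        exact Or.inr ⟨⟨[], _, _, rfl, rfl⟩, swap _ _ hg.2.1 hg.2.2 (by omega) heq⟩

end Pool.Agent.TH945.CB
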