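import Mathlib
import Pool.Agent.TH945.CB.Cls
set_option autoImplicit false

/-!
# From the signature function of a knot to its jump function
-/

namespace Pool.Agent.TH945.CB

open Pool.Agent.TH670.KN Filter Topology

/-- The signature function of the iterated cable with parameters `L` (last cabling first) of a
companion with signature function `f`. -/
noncomputable def sigC (f : ℝ → ℤ) : List (ℕ × ℕ) → ℝ → ℤ
  | [], x => f x
  | (p, q) :: L, x => sig p q x + sigC f L (p * x)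

/-- General properties of Tristram-Levine signature functions `x ↦ σ_x(K)`. -/
structure IsSig (f : ℝ → ℤ) : Prop where
  per : ∀ x, f (x + 1) = f x
  even : ∀ x, f (-x) = f x
  fin : {x : ℝ | x ∈ Set.Ico (0 : ℝ) 1 ∧ ¬ ∀ᶠ y in 𝓝 x, f y = f x}.Finite

lemma IsSig.per_int {f : ℝ → ℤ} (hf : IsSig f) (x : ℝ) (k : ℤ) : f (x + k) = f x := by
  have h1 : ∀ (n : ℕ) (x : ℝ), f (x + n) = f x := by
    intro n
    induction n with
    | zero => intro x; simp
    | succ n ih =>
      intro x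
      push_cast
      rw [← add_assoc, hf.per, ih]
  rcases Int.eq_nat_or_neg k with ⟨n, rfl | rfl⟩
  · exact_mod_cast h1 n x
  · have h2 := h1 n (x + ((-n : ℤ) : ℝ))
    push_cast at h2 ⊢
    rw [← h2]
    congr 1
    ring

/-- the points where `f` is not locally constant -/
def Bad (f : ℝ → ℤ) : Set ℝ := {x : ℝ | ¬ ∀ᶠ y in 𝓝 x, f y = f x}

lemma IsSig.bad_add {f : ℝ → ℤ} (hf : IsSig f) {x : ℝ} (k : ℤ) (h : x ∈ Bad f) :
    x + k ∈ Bad f := by
  intro h1
  apply h
  have h2 : Tendsto (fun y : ℝ => y + (k : ℝ)) (𝓝 x) (𝓝 (x + k)) :=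
    (continuous_add_right (k : ℝ)).tendsto x
  filter_upwards [h2.eventually h1] with y hy
  rwa [hf.per_int, hf.per_int] at hy

lemma IsSig.isolated {f : ℝ → ℤ} (hf : IsSig f) (x : ℝ) : ∀ᶠ y in 𝓝[≠] x, y ∉ Bad f := by
  classical
  have hfin : (Bad f ∩ Set.Ioo (x - 1) (x + 1)).Finite := by
    refine (Finset.finite_toSet (((hf.fin.toFinset) ×ˢ ({⌊x⌋ - 1, ⌊x⌋, ⌊x⌋ + 1} : Finset ℤ)).image
      (fun c : ℝ × ℤ => c.1 + c.2))).subset ?_
    rintro y ⟨hy, hy1, hy2⟩
    rw [Finset.mem_coe, Finset.mem_image]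
    have hfy := Int.floor_add_fract y
    refine ⟨(Int.fract y, ⌊y⌋), ?_, by simp only; linarith⟩
    rw [Finset.mem_product, Set.Finite.mem_toFinset]
    refine ⟨⟨⟨Int.fract_nonneg _, Int.fract_lt_one _⟩, ?_⟩, ?_⟩
    · have h1 := hf.bad_add (-⌊y⌋) hy
      have e : y + ((-⌊y⌋ : ℤ) : ℝ) = Int.fract y := by push_cast; linarith
      rw [e] at h1
      exact h1
    · have h1 := Int.floor_le x
      have h2 := Int.lt_floor_add_one x
      have h3 := Int.floor_le y
      have h4 := Int.lt_floor_add_one y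
      have h5 : (⌊x⌋ : ℝ) - 2 < ⌊y⌋ := by linarith
      have h6 : (⌊y⌋ : ℝ) < ⌊x⌋ + 2 := by linarith
      have h7 : ⌊x⌋ - 2 < ⌊y⌋ := by exact_mod_cast h5
      have h8 : ⌊y⌋ < ⌊x⌋ + 2 := by exact_mod_cast h6
      simp only [Finset.mem_insert, Finset.mem_singleton]
      omega
  have h1 : ((Bad f ∩ Set.Ioo (x - 1) (x + 1)) \ {x})ᶜ ∈ 𝓝 x :=
    (hfin.subset Set.diff_subset).isClosed.isOpen_compl.mem_nhds (by simp)
  have h2 : Set.Ioo (x - 1) (x + 1) ∈ 𝓝 x := Ioo_mem_nhds (by linarith) (by linarith)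
  filter_upwards [mem_nhdsWithin_of_mem_nhds h1, mem_nhdsWithin_of_mem_nhds h2,
    self_mem_nhdsWithin] with y a b c hy
  exact a ⟨⟨hy, b⟩, c⟩

lemma const_on {f : ℝ → ℤ} {a b : ℝ} (h : ∀ y ∈ Set.Ioo a b, y ∉ Bad f) {y z : ℝ}
    (hy : y ∈ Set.Ioo a b) (hz : z ∈ Set.Ioo a b) : f y = f z := by
  have hc : ContinuousOn f (Set.Ioo a b) := by
    intro w hw
    apply ContinuousAt.continuousWithinAt
    have h1 : ∀ᶠ y in 𝓝 w, f y = f w := by
      by_contra h2
      exact h w hw h2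
    exact tendsto_const_nhds.congr' (h1.mono fun y hy => hy.symm)
  exact isPreconnected_Ioo.constant hc hy hz

/-- near `x` the function `f` is constant to the left and to the right of `x` -/
lemma IsSig.sides {f : ℝ → ℤ} (hf : IsSig f) (x : ℝ) :
    ∃ δ > 0, ∃ a b : ℤ, (∀ y ∈ Set.Ioo x (x + δ), f y = a) ∧ (∀ y ∈ Set.Ioo (x - δ) x, f y = b) := by
  have h1 := hf.isolated x
  rw [eventually_nhdsWithin_iff, Metric.eventually_nhds_iff] at h1
  obtain ⟨δ, hδ, h2⟩ := h1
  have hr : ∀ y ∈ Set.Ioo x (x + δ), y ∉ Bad f := by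
    intro y hy
    refine h2 ?_ (ne_of_gt hy.1)
    rw [Real.dist_eq, abs_lt]; constructor <;> linarith [hy.1, hy.2]
  have hl : ∀ y ∈ Set.Ioo (x - δ) x, y ∉ Bad f := by
    intro y hy
    refine h2 ?_ (ne_of_lt hy.2)
    rw [Real.dist_eq, abs_lt]; constructor <;> linarith [hy.1, hy.2]
  refine ⟨δ, hδ, f (x + δ / 2), f (x - δ / 2), ?_, ?_⟩
  · intro y hy
    exact const_on hr hy ⟨by linarith, by linarith⟩
  · intro y hy
    exact const_on hl hy ⟨by linarith, by linarith⟩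

lemma IsSig.exists_jump {f : ℝ → ℤ} (hf : IsSig f) (x : ℝ) :
    ∃ c : ℤ, HasJump (fun y => (f y : ℝ)) x c := by
  obtain ⟨δ, hδ, a, b, h1, h2⟩ := hf.sides x
  refine ⟨a - b, ?_⟩
  filter_upwards [eventually_lt hδ] with ε hε
  rw [h1 (x + ε) ⟨by linarith [hε.1], by linarith [hε.2]⟩,
    h2 (x - ε) ⟨by linarith [hε.2], by linarith [hε.1]⟩]
  push_cast
  ring

/-- the jump function of `f` -/
noncomputable def jmp {f : ℝ → ℤ} (hf : IsSig f) (x : ℝ) : ℤ := (hf.exists_jump x).choose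

lemma jmp_spec {f : ℝ → ℤ} (hf : IsSig f) (x : ℝ) :
    HasJump (fun y => (f y : ℝ)) x (jmp hf x) := (hf.exists_jump x).choose_spec

lemma jump_unique {F : ℝ → ℝ} {x c d : ℝ} (h1 : HasJump F x c) (h2 : HasJump F x d) : c = d := by
  have h3 := (h1.and h2).exists
  obtain ⟨ε, a, b⟩ := h3
  rw [← a, ← b]

lemma jmp_eq {f : ℝ → ℤ} (hf : IsSig f) {x : ℝ} {c : ℤ} (h : HasJump (fun y => (f y : ℝ)) x c) :
    jmp hf x = c := by
  have := jump_unique (jmp_spec hf x) h
  exact_mod_cast this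

lemma jmp_per {f : ℝ → ℤ} (hf : IsSig f) (x : ℝ) (k : ℤ) : jmp hf (x + k) = jmp hf x := by
  apply jmp_eq
  have h := jmp_spec hf x
  filter_upwards [h] with ε hε
  rw [← hε]
  have e1 : x + (k : ℝ) + ε = x + ε + k := by ring
  have e2 : x + (k : ℝ) - ε = x - ε + k := by ring
  rw [e1, e2, hf.per_int, hf.per_int]

lemma jmp_neg {f : ℝ → ℤ} (hf : IsSig f) (x : ℝ) : jmp hf (-x) = - jmp hf x := by
  apply jmp_eq
  have h := jmp_spec hf x
  filter_upwards [h] with ε hε
  have e1 : -x + ε = -(x - ε) := by ring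
  have e2 : -x - ε = -(x + ε) := by ring
  rw [e1, e2, hf.even, hf.even]
  push_cast
  linarith

lemma jmp_good {f : ℝ → ℤ} (hf : IsSig f) {x : ℝ} (h : x ∉ Bad f) : jmp hf x = 0 := by
  have h0 : ∀ᶠ y in 𝓝 x, f y = f x := by
    by_contra h2
    exact h h2
  apply jmp_eq
  rw [Metric.eventually_nhds_iff] at h0
  obtain ⟨δ, hδ, h2⟩ := h0
  filter_upwards [eventually_lt hδ] with ε hε
  rw [h2 (y := x + ε) (by rw [Real.dist_eq, abs_lt]; constructor <;> linarith [hε.1, hε.2]),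
    h2 (y := x - ε) (by rw [Real.dist_eq, abs_lt]; constructor <;> linarith [hε.1, hε.2])]
  push_cast
  ring

lemma PF_jmp {f : ℝ → ℤ} (hf : IsSig f) : PF (jmp hf) where
  per := jmp_per hf
  fin := hf.fin.subset (by
    rintro x ⟨hx, hne⟩
    refine ⟨hx, fun h => ?_⟩
    apply hne
    apply jmp_good
    intro h2
    exact h2 h)

lemma jmp_int {f : ℝ → ℤ} (hf : IsSig f) (k : ℤ) : jmp hf k = 0 := by
  have h1 := jmp_per hf 0 k
  rw [zero_add] at h1
  have h2 := jmp_neg hf 0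
  rw [neg_zero] at h2
  omega

lemma M_jmp {f : ℝ → ℤ} (hf : IsSig f) : M (jmp hf) = 0 := by
  classical
  set T := (PF_jmp hf).fin.toFinset with hT
  have hmem : ∀ x, x ∈ T ↔ x ∈ Set.Ico (0 : ℝ) 1 ∧ jmp hf x ≠ 0 := by
    intro x; rw [hT, Set.Finite.mem_toFinset]; rfl
  have h1 : M (jmp hf) = ∑ x ∈ T, (jmp hf x : ℂ) * (1 : ℂ) :=
    W_eq T (fun x hx => ((hmem x).1 hx).1) (fun x hx h0 => (hmem x).2 ⟨hx, h0⟩)
  have hfr : ∀ x : ℝ, jmp hf (Int.fract (-x)) = - jmp hf x := by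
    intro x
    have h2 := Int.floor_add_fract (-x)
    have h3 := jmp_per hf (Int.fract (-x)) ⌊-x⌋
    rw [show Int.fract (-x) + (⌊-x⌋ : ℝ) = -x by linarith] at h3
    rw [← h3, jmp_neg]
  have h2 : ∑ x ∈ T, (jmp hf x : ℂ) * (1 : ℂ) = ∑ x ∈ T, - ((jmp hf x : ℂ) * (1 : ℂ)) := by
    refine Finset.sum_nbij' (fun x => Int.fract (-x)) (fun x => Int.fract (-x)) ?_ ?_ ?_ ?_ ?_
    · intro x hx
      rw [hmem] at hx ⊢
      refine ⟨⟨Int.fract_nonneg _, Int.fract_lt_one _⟩, ?_⟩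
      rw [hfr]; exact neg_ne_zero.2 hx.2
    · intro x hx
      rw [hmem] at hx ⊢
      refine ⟨⟨Int.fract_nonneg _, Int.fract_lt_one _⟩, ?_⟩
      rw [hfr]; exact neg_ne_zero.2 hx.2
    · intro x hx
      rw [hmem] at hx
      have h3 := Int.floor_add_fract (-x)
      have e : -Int.fract (-x) = x + (⌊-x⌋ : ℝ) := by linarith
      rw [e, Int.fract_add_intCast, Int.fract_eq_self]
      exact ⟨hx.1.1, hx.1.2⟩
    · intro x hx
      rw [hmem] at hx
      have h3 := Int.floor_add_fract (-x)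
      have e : -Int.fract (-x) = x + (⌊-x⌋ : ℝ) := by linarith
      rw [e, Int.fract_add_intCast, Int.fract_eq_self]
      exact ⟨hx.1.1, hx.1.2⟩
    · intro x hx
      rw [hfr]; push_cast; ring
  rw [h1]
  rw [Finset.sum_neg_distrib] at h2
  linear_combination (1 / 2 : ℂ) * h2

/-- If `f` has no jumps, then it is constant up to finitely many points. -/
lemma IsSig.const_of_no_jump {f : ℝ → ℤ} (hf : IsSig f) (h : ∀ x, jmp hf x = 0) :
    ∃ a : ℤ, {x : ℝ | x ∈ Set.Ico (0 : ℝ) 1 ∧ f x ≠ a}.Finite := by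
  classical
  choose δ hδ a b ha hb using hf.sides
  have hab : ∀ x, a x = b x := by
    intro x
    have h1 : HasJump (fun y => (f y : ℝ)) x ((a x - b x : ℤ) : ℝ) := by
      filter_upwards [eventually_lt (hδ x)] with ε hε
      rw [ha x (x + ε) ⟨by linarith [hε.1], by linarith [hε.2]⟩,
        hb x (x - ε) ⟨by linarith [hε.2], by linarith [hε.1]⟩]
      push_cast
      ring
    have h2 := jmp_eq hf h1
    rw [h] at h2
    omega
  have hloc : ∀ x y : ℝ, |y - x| < δ x → a y = a x := by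
    intro x y hy
    rw [abs_lt] at hy
    rcases lt_trichotomy y x with h1 | h1 | h1
    · -- a point slightly to the right of `y`
      set z := y + min (δ y) (x - y) / 2 with hz
      have h2 : 0 < min (δ y) (x - y) := lt_min (hδ y) (by linarith)
      have h3 := min_le_left (δ y) (x - y)
      have h4 := min_le_right (δ y) (x - y)
      rw [← ha y z ⟨by linarith, by linarith⟩, hab x, ← hb x z ⟨by linarith, by linarith⟩]
    · rw [h1]
    · set z := y + min (δ y) (x + δ x - y) / 2 with hz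
      have h2 : 0 < min (δ y) (x + δ x - y) := lt_min (hδ y) (by linarith)
      have h3 := min_le_left (δ y) (x + δ x - y)
      have h4 := min_le_right (δ y) (x + δ x - y)
      rw [← ha y z ⟨by linarith, by linarith⟩, ← ha x z ⟨by linarith, by linarith⟩]
  have hcont : Continuous a := by
    rw [continuous_iff_continuousAt]
    intro x
    have h1 : ∀ᶠ y in 𝓝 x, a y = a x := by
      rw [Metric.eventually_nhds_iff]
      exact ⟨δ x, hδ x, fun y hy => hloc x y (by rwa [Real.dist_eq] at hy)⟩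
    exact tendsto_const_nhds.congr' (h1.mono fun y hy => hy.symm)
  refine ⟨a 0, hf.fin.subset ?_⟩
  rintro x ⟨hx, hne⟩
  refine ⟨hx, fun h1 => hne ?_⟩
  have h2 : a x = a 0 := isPreconnected_univ.constant hcont.continuousOn (Set.mem_univ x)
    (Set.mem_univ 0)
  rw [← h2]
  rw [Metric.eventually_nhds_iff] at h1
  obtain ⟨η, hη, h3⟩ := h1
  set z := x + min η (δ x) / 2 with hz
  have h4 : 0 < min η (δ x) := lt_min hη (hδ x)
  have h5 := min_le_left η (δ x)
  have h6 := min_le_right η (δ x)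
  have h7 : f z = f x := h3 (by rw [Real.dist_eq, abs_lt]; constructor <;> linarith)
  rw [← h7]
  exact ha x z ⟨by linarith, by linarith⟩

lemma sigC_jump {f : ℝ → ℤ} (hf : IsSig f) (L : List (ℕ × ℕ)) (hL : Good L) (x : ℝ) :
    HasJump (fun y => (sigC f L y : ℝ)) x (A (jmp hf) L x : ℝ) := by
  induction L generalizing x with
  | nil => exact jmp_spec hf x
  | cons c L ih =>
    obtain ⟨p, q⟩ := c
    have h1 := hL (p, q) (by simp)
    simp only at h1
    have h2 := sig_jump h1.1 x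
    have h3 := ih (good_tail hL) ((p : ℝ) * x)
    have h4 := HasJump.comp_mul (P := (p : ℝ)) (by
      have : 0 < p := by omega
      exact_mod_cast this) h3
    have h5 := h2.add h4
    simp only [sigC, A]
    push_cast
    exact h5

lemma A_int {f : ℝ → ℤ} (hf : IsSig f) (L : List (ℕ × ℕ)) (hL : Good L) (k : ℤ) :
    A (jmp hf) L k = 0 := by
  induction L generalizing k with
  | nil => exact jmp_int hf k
  | cons c L ih =>
    obtain ⟨p, q⟩ := c
    simp only [A]
    rw [J_int (hL (p, q) (by simp)).1]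
    have : (p : ℝ) * (k : ℝ) = ((p * k : ℤ) : ℝ) := by push_cast; ring
    rw [this, ih (good_tail hL)]
    ring

/-- Iterated cables with the same signature function have the same jump function. -/
theorem A_eq {f : ℝ → ℤ} (hf : IsSig f) {L L' : List (ℕ × ℕ)} (hL : Good L) (hL' : Good L')
    (hfin : {x : ℝ | x ∈ Set.Ioo (0 : ℝ) 1 ∧ sigC f L x ≠ sigC f L' x}.Finite) (x : ℝ) :
    A (jmp hf) L x = A (jmp hf) L' x := by
  have key : ∀ y ∈ Set.Ioo (0 : ℝ) 1, A (jmp hf) L y = A (jmp hf) L' y := by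
    intro y hy
    have h1 := (sigC_jump hf L hL y).add ((sigC_jump hf L' hL' y).const_mul (-1))
    have h2 := jump_zero (F := fun y => (sigC f L y : ℝ) + -1 * (sigC f L' y : ℝ)) ?_ hy h1
    · have h3 : (A (jmp hf) L y : ℝ) = (A (jmp hf) L' y : ℝ) := by linarith
      exact_mod_cast h3
    · refine hfin.subset ?_
      rintro z ⟨hz, hne⟩
      refine ⟨hz, fun heq => hne ?_⟩
      simp only [heq]
      ring
  have hfl := Int.floor_add_fract x
  have hx : x = Int.fract x + (⌊x⌋ : ℝ) := by linarith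
  rcases (Int.fract_nonneg x).lt_or_eq with h | h
  · have h4 := key (Int.fract x) ⟨h, Int.fract_lt_one x⟩
    rw [hx, (PF_A (PF_jmp hf) hL).per, (PF_A (PF_jmp hf) hL').per]
    exact h4
  · rw [hx, ← h, zero_add, A_int hf L hL, A_int hf L' hL']

/-- The classification of iterated cables by their signature functions. -/
theorem main {f : ℝ → ℤ} (hf : IsSig f) {L L' : List (ℕ × ℕ)} (hL : Good L) (hL' : Good L')
    (hfin : {x : ℝ | x ∈ Set.Ioo (0 : ℝ) 1 ∧ sigC f L x ≠ sigC f L' x}.Finite) :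
    L = L' ∨ ((∃ (K : List (ℕ × ℕ)) (p q : ℕ), L = K ++ [(p, q)] ∧ L' = K ++ [(q, p)]) ∧
      ∃ a : ℤ, {x : ℝ | x ∈ Set.Ico (0 : ℝ) 1 ∧ f x ≠ a}.Finite) := by
  rcases classify (PF_jmp hf) (M_jmp hf) L L' hL hL' (A_eq hf hL hL' hfin) with h | ⟨h1, h2⟩
  · exact Or.inl h
  · exact Or.inr ⟨h1, hf.const_of_no_jump h2⟩

end Pool.Agent.TH945.CB
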