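import Mathlib
import Pool.Agent.TH945.CB.Sig
set_option autoImplicit false

/-!
# Cabling parameters of both signs: iterated torus knots with the same winding number
-/

namespace Pool.Agent.TH945.CB

open Pool.Agent.TH670.KN Finset

/-- coprime parameters `(p, q)` with `p` and `|q|` at least `2` -/
def GoodZ (L : List (ℕ × ℤ)) : Prop :=
  ∀ c ∈ L, Nat.Coprime c.1 c.2.natAbs ∧ 2 ≤ c.1 ∧ 2 ≤ c.2.natAbs

lemma goodZ_tail {c : ℕ × ℤ} {L : List (ℕ × ℤ)} (h : GoodZ (c :: L)) : GoodZ L :=
  fun d hd => h d (by simp [hd])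

/-- The jump function of the iterated cable with parameters `L` (of both signs) of a companion with
jump function `j`. -/
noncomputable def AZ (j : ℝ → ℤ) : List (ℕ × ℤ) → ℝ → ℤ
  | [], x => j x
  | (p, q) :: L, x => (2 * q.sign) * J p q.natAbs x + AZ j L (p * x)

/-- the winding number -/
def wd : List (ℕ × ℤ) → ℕ
  | [] => 1
  | (p, _) :: L => p * wd L

lemma PF_AZ {j : ℝ → ℤ} (hj : PF j) {L : List (ℕ × ℤ)} (hL : GoodZ L) : PF (AZ j L) := by
  induction L with
  | nil => exact hj
  | cons c L ih =>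
    obtain ⟨p, q⟩ := c
    have hp : 0 < p := by have := (hL (p, q) (by simp)).2.1; simp only at this; omega
    exact ((PF_J p q.natAbs).smul (2 * q.sign)).add ((ih (goodZ_tail hL)).comp hp)

lemma F_consZ {j : ℝ → ℤ} (hj : PF j) {p : ℕ} {q : ℤ} {L : List (ℕ × ℤ)}
    (hL : GoodZ ((p, q) :: L)) (n : ℕ) : F n (AZ j ((p, q) :: L)) =
      2 * (q.sign : ℂ) * G p q.natAbs n + if p ∣ n then (p : ℂ) * F (n / p) (AZ j L) else 0 := by
  have hp : 0 < p := by have := (hL (p, q) (by simp)).2.1; simp only at this; omega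
  have hq : 0 < q.natAbs := by have := (hL (p, q) (by simp)).2.2; simp only at this; omega
  have h1 : F n (AZ j ((p, q) :: L)) = F n (fun x => (2 * q.sign) * J p q.natAbs x) +
      F n (fun x => AZ j L (p * x)) :=
    W_add ((PF_J p q.natAbs).smul (2 * q.sign)) ((PF_AZ hj (goodZ_tail hL)).comp hp)
  rw [h1, F_comp (PF_AZ hj (goodZ_tail hL)) hp]
  congr 1
  have h2 : F n (fun x => (2 * q.sign) * J p q.natAbs x) =
      ((2 * q.sign : ℤ) : ℂ) * F n (J p q.natAbs) := W_smul (PF_J p q.natAbs) (2 * q.sign)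
  rw [h2, F_J hp hq]
  push_cast
  rfl

lemma F_oneZ {j : ℝ → ℤ} (hj : PF j) {p : ℕ} {q : ℤ} {L : List (ℕ × ℤ)}
    (hL : GoodZ ((p, q) :: L)) : 6 ≤ p * q.natAbs ∧
      F 1 (AZ j ((p, q) :: L)) = 2 * (q.sign : ℂ) * mo (ee ((1 : ℝ) / ((p * q.natAbs : ℕ) : ℝ))) := by
  obtain ⟨hc, hp, hq⟩ := hL (p, q) (by simp)
  simp only at hc hp hq
  refine ⟨?_, ?_⟩
  · have hne : p ≠ q.natAbs := by
      intro h
      rw [← h, Nat.coprime_self] at hc; omega
    rcases Nat.lt_or_gt_of_ne hne with h | h
    · calc 6 = 2 * 3 := rfl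
        _ ≤ p * q.natAbs := Nat.mul_le_mul hp (by omega)
    · calc 6 = 3 * 2 := rfl
        _ ≤ p * q.natAbs := Nat.mul_le_mul (by omega) hq
  · rw [F_consZ hj hL, if_neg (by rw [Nat.dvd_one]; omega), add_zero,
      G_formula hc (by omega) (by omega) (by rw [Nat.dvd_one]; omega),
      if_neg (by rw [Nat.dvd_one]; omega), sub_zero]
    unfold mo
    push_cast
    rfl

lemma mo_neg {t : ℝ} (h : ee t ≠ 1) : mo (ee (-t)) = - mo (ee t) := by
  have h1 := ee_neg t
  have h0 := ee_ne_zero t
  have h2 : ee (-t) = 1 / ee t := by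
    rw [eq_div_iff h0]; exact h1
  have h3 : ee t - 1 ≠ 0 := sub_ne_zero.2 h
  have h4 : 1 - ee t ≠ 0 := sub_ne_zero.2 (Ne.symm h)
  unfold mo
  rw [h2]
  have h5 : 1 / ee t - 1 = (1 - ee t) / ee t := by field_simp
  have h6 : 1 + 1 / ee t = (1 + ee t) / ee t := by field_simp; ring
  rw [h5, h6, div_div_div_cancel_right₀ h0, ← div_neg]
  congr 1
  ring

lemma ee_neg_ne_one {t : ℝ} (h : ee t ≠ 1) : ee (-t) ≠ 1 := by
  intro h1
  apply h
  have h2 := ee_neg t
  rw [h1, one_mul] at h2
  exact h2

lemma sign_cases {q : ℤ} (h : 2 ≤ q.natAbs) : q.sign = 1 ∨ q.sign = -1 := by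
  rcases lt_trichotomy q 0 with h1 | h1 | h1
  · exact Or.inr (Int.sign_eq_neg_one_of_neg h1)
  · subst h1; simp at h
  · exact Or.inl (Int.sign_eq_one_of_pos h1)

/-- The crucial case. -/
lemma keyZ {p p' : ℕ} {q q' : ℤ} {L L' : List (ℕ × ℤ)}
    (hL : GoodZ ((p, q) :: L)) (hL' : GoodZ ((p', q') :: L'))
    (heq : ∀ x, AZ (fun _ => 0) ((p, q) :: L) x = AZ (fun _ => 0) ((p', q') :: L') x)
    (hw : wd ((p, q) :: L) = wd ((p', q') :: L'))
    (hs : q.sign = q'.sign)
    (hn : p * q.natAbs = p' * q'.natAbs) (hlt : q.natAbs < q'.natAbs) : False := by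
  have hj : PF (fun _ => (0 : ℤ)) := ⟨fun _ _ => rfl, by simp⟩
  obtain ⟨hc, hp, hq⟩ := hL (p, q) (by simp)
  obtain ⟨hc', hp', hq'⟩ := hL' (p', q') (by simp)
  simp only at hc hp hq hc' hp' hq'
  have hLg : GoodZ L := goodZ_tail hL
  have hLg' : GoodZ L' := goodZ_tail hL'
  have FF : ∀ h : ℕ, 2 * (q.sign : ℂ) * G p q.natAbs h +
      (if p ∣ h then (p : ℂ) * F (h / p) (AZ (fun _ => 0) L) else 0) =
      2 * (q.sign : ℂ) * G p' q'.natAbs h +
      (if p' ∣ h then (p' : ℂ) * F (h / p') (AZ (fun _ => 0) L') else 0) := by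
    intro h
    rw [← F_consZ hj hL h]
    rw [hs, ← F_consZ hj hL' h]
    exact F_congr heq _
  have nil_of : ∀ K : List (ℕ × ℤ), GoodZ K → F 1 (AZ (fun _ => 0) K) = 0 → K = [] := by
    intro K hK h0
    rcases K with _ | ⟨⟨a, b⟩, K⟩
    · rfl
    · exfalso
      obtain ⟨h1, h2⟩ := F_oneZ hj hK
      rw [h0] at h2
      have hb := (hK (a, b) (by simp)).2.2
      simp only at hb
      apply first_ne_zero h1
      rcases sign_cases hb with h | h
      · rw [h] at h2; simp only [Int.cast_one, Int.cast_neg] at h2; linear_combination (-1 / 2 : ℂ) * h2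
      · rw [h] at h2; simp only [Int.cast_one, Int.cast_neg] at h2; linear_combination (1 / 2 : ℂ) * h2
  have hsg : (q.sign : ℂ) = 1 ∨ (q.sign : ℂ) = -1 := by
    rcases sign_cases hq with h | h <;> rw [h] <;> simp
  have hsg0 : (q.sign : ℂ) ≠ 0 := by
    rcases hsg with h | h <;> rw [h] <;> norm_num
  obtain ⟨Q, hQ⟩ : ∃ Q, Q = q.natAbs := ⟨_, rfl⟩
  obtain ⟨Q', hQ'⟩ : ∃ Q', Q' = q'.natAbs := ⟨_, rfl⟩
  obtain ⟨s, hsdef⟩ : ∃ s : ℂ, s = (q.sign : ℂ) := ⟨_, rfl⟩
  rw [← hQ, ← hQ', ← hsdef] at FF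
  rw [← hQ] at hc hq hn hlt
  rw [← hQ'] at hc' hq' hn hlt
  rw [← hsdef] at hsg hsg0
  have hpq : ¬ p ∣ Q := by
    intro h
    have h2 : Nat.gcd p Q = p := Nat.gcd_eq_left h
    rw [hc] at h2; omega
  have hqp : ¬ Q ∣ p := by
    intro h
    have h2 : Nat.gcd p Q = Q := Nat.gcd_eq_right h
    rw [hc] at h2; omega
  have hpq' : ¬ p' ∣ Q' := by
    intro h
    have h2 : Nat.gcd p' Q' = p' := Nat.gcd_eq_left h
    rw [hc'] at h2; omega
  have hqp' : ¬ Q' ∣ p' := by
    intro h
    have h2 : Nat.gcd p' Q' = Q' := Nat.gcd_eq_right h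
    rw [hc'] at h2; omega
  have hq'q : ¬ Q' ∣ Q := fun h => by have := Nat.le_of_dvd (by omega) h; omega
  have hncast : (p : ℝ) * Q = p' * Q' := by exact_mod_cast hn
  by_cases hp'q : p' ∣ Q
  · obtain ⟨c, hcq⟩ := hp'q
    have hq'c : Q' = p * c := by
      have h1 : p' * (p * c) = p' * Q' := by rw [← hn, hcq]; ring
      exact (Nat.eq_of_mul_eq_mul_left (by omega) h1).symm
    by_cases hc1 : c = 1
    · subst hc1
      rw [mul_one] at hcq hq'c
      have hLn : L = [] := by
        have h1 := FF p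
        have e2 : ¬ p' ∣ p := by rw [← hcq]; exact hqp
        rw [if_pos (dvd_refl _), if_neg e2, Nat.div_self (by omega), add_zero,
          ← hcq, hq'c, G_swap Q p, add_eq_left, mul_eq_zero] at h1
        rcases h1 with h1 | h1
        · exfalso; have : p = 0 := by exact_mod_cast h1
          omega
        · exact nil_of L hLg h1
      have hLn' : L' = [] := by
        have h1 := FF Q
        have e2 : p' ∣ Q := by rw [hcq]
        rw [if_neg hpq, if_pos e2, ← hcq, Nat.div_self (by omega), add_zero,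
          hq'c, G_swap Q p, left_eq_add, mul_eq_zero] at h1
        rcases h1 with h1 | h1
        · exfalso; have : Q = 0 := by exact_mod_cast h1
          omega
        · exact nil_of L' hLg' h1
      subst hLn; subst hLn'
      simp only [wd, mul_one] at hw
      omega
    · have hc0 : c ≠ 0 := by rintro rfl; omega
      have hc2 : 2 ≤ c := by omega
      have hp'lt : p' < Q := by rw [hcq]; nlinarith
      have hp'p : p' < p := by
        by_contra hge
        push Not at hge
        have : Q' ≤ Q := by rw [hq'c, hcq]; exact Nat.mul_le_mul_right c hge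
        omega
      have hQ'4 : 4 ≤ Q' := by rw [hq'c]; nlinarith
      have hqp'd : ¬ Q ∣ p' := fun h => by have := Nat.le_of_dvd (by omega) h; omega
      have hpp' : ¬ p ∣ p' := by
        intro h
        have h1 : p ∣ Q := h.trans ⟨c, hcq⟩
        exact hpq h1
      have h1 := FF p'
      rw [if_neg hpp', add_zero, if_pos (dvd_refl _), Nat.div_self (by omega),
        G_formula hc (by omega) (by omega) hqp'd, if_neg hpp', sub_zero,
        G_formula hc' (by omega) (by omega) hqp', if_pos (dvd_refl _), hncast] at h1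
      have hp'0 : (p' : ℂ) ≠ 0 := by exact_mod_cast (by omega : p' ≠ 0)
      have hv1 : ee ((p' : ℝ) / Q') ≠ 1 := ee_ne_one (by omega) hqp'
      have h2 : F 1 (AZ (fun _ => 0) L') = 2 * s * mo (ee ((p' : ℝ) / Q')) := by
        unfold mo
        apply mul_left_cancel₀ hp'0
        linear_combination -h1
      rcases L' with _ | ⟨⟨a, b⟩, L'⟩
      · have h3 : F 1 (AZ (fun _ => 0) []) = 0 := by
          unfold F W
          simp [AZ]
        rw [h3] at h2
        have h4 : mo (ee ((p' : ℝ) / Q')) = 0 := by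
          rcases mul_eq_zero.1 h2.symm with h | h
          · exfalso
            rcases mul_eq_zero.1 h with h | h
            · norm_num at h
            · exact hsg0 h
          · exact h
        have h5 := ee_neg_one (by omega) (mo_zero hv1 h4)
        have h6 : Q' ∣ 2 := (Nat.Coprime.symm hc').dvd_of_dvd_mul_right h5
        have h7 := Nat.le_of_dvd (by omega) h6
        omega
      · obtain ⟨h3a, h3b⟩ := F_oneZ hj hLg'
        have hb := (hLg' (a, b) (by simp)).2.2
        simp only at hb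
        have hu1 : ee ((1 : ℝ) / ((a * b.natAbs : ℕ) : ℝ)) ≠ 1 := ee_first h3a
        have hcase : mo (ee ((1 : ℝ) / ((a * b.natAbs : ℕ) : ℝ))) = mo (ee ((p' : ℝ) / Q')) ∨
            mo (ee ((1 : ℝ) / ((a * b.natAbs : ℕ) : ℝ))) = mo (ee (-((p' : ℝ) / Q'))) := by
          rw [mo_neg hv1]
          rw [h3b] at h2
          rcases sign_cases hb with hb1 | hb1 <;> rcases hsg with hs1 | hs1 <;>
            rw [hb1, hs1] at h2 <;> simp only [Int.cast_one, Int.cast_neg] at h2
          · left; linear_combination (1 / 2 : ℂ) * h2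
          · right; linear_combination (1 / 2 : ℂ) * h2
          · right; linear_combination (-1 / 2 : ℂ) * h2
          · left; linear_combination (-1 / 2 : ℂ) * h2
        obtain ⟨H, hH⟩ : ∃ H, H = a * b.natAbs := ⟨_, rfl⟩
        rw [← hH] at hcase hu1 h3a
        have hq0 : (Q' : ℝ) ≠ 0 := by exact_mod_cast (by omega : Q' ≠ 0)
        have hh0 : (H : ℝ) ≠ 0 := by exact_mod_cast (by omega : H ≠ 0)
        -- `Q' ∓ p' H = m H Q'`
        have h6 : ∃ (m ε : ℤ), (ε = 1 ∨ ε = -1) ∧ (Q' : ℤ) - ε * (p' * H) = m * (H * Q') := by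
          rcases hcase with h | h
          · have h4 := mo_inj hu1 hv1 h
            rw [ee_eq_iff] at h4
            obtain ⟨m, hm⟩ := h4
            refine ⟨m, 1, Or.inl rfl, ?_⟩
            have h5 : (Q' : ℝ) - 1 * (p' * H) = m * (H * Q') := by
              rw [← hm]; field_simp
            exact_mod_cast h5
          · have h4 := mo_inj hu1 (ee_neg_ne_one hv1) h
            rw [ee_eq_iff] at h4
            obtain ⟨m, hm⟩ := h4
            refine ⟨m, -1, Or.inr rfl, ?_⟩
            have h5 : (Q' : ℝ) - (-1 : ℝ) * (p' * H) = m * (H * Q') := by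
              rw [← hm]; field_simp
            exact_mod_cast h5
        obtain ⟨m, ε, hε, h6⟩ := h6
        have hε2 : ε * ε = 1 := by rcases hε with h | h <;> rw [h] <;> norm_num
        have h7 : (Q' : ℤ) ∣ (p' : ℤ) * H :=
          ⟨ε * (1 - m * H), by linear_combination (-ε) * h6 - (p' : ℤ) * H * hε2⟩
        have h8 : (H : ℤ) ∣ (Q' : ℤ) := ⟨ε * p' + m * Q', by linear_combination h6⟩
        have h7' : Q' ∣ p' * H := by exact_mod_cast h7
        have h8' : H ∣ Q' := by exact_mod_cast h8
        have h9 : Q' ∣ H := (Nat.Coprime.symm hc').dvd_of_dvd_mul_left h7'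
        have h10 : H = Q' := Nat.dvd_antisymm h8' h9
        rw [h10] at h6
        have h11 : (Q' : ℤ) * (1 - ε * p') = Q' * (m * Q') := by linear_combination h6
        have hq0' : (Q' : ℤ) ≠ 0 := by exact_mod_cast (by omega : Q' ≠ 0)
        have h12 : (1 : ℤ) - ε * p' = m * Q' := mul_left_cancel₀ hq0' h11
        rcases hε with h | h
        · rw [h] at h12
          have h13 : (Q' : ℤ) ∣ ((p' - 1 : ℕ) : ℤ) := by
            rw [Nat.cast_sub (by omega)]
            exact ⟨-m, by push_cast; linear_combination -h12⟩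
          have h14 : Q' ∣ p' - 1 := by exact_mod_cast h13
          have := Nat.le_of_dvd (by omega) h14
          have : p ≤ Q' := by rw [hq'c]; exact Nat.le_mul_of_pos_right p (by omega)
          omega
        · rw [h] at h12
          have h13 : (Q' : ℤ) ∣ ((p' + 1 : ℕ) : ℤ) := by
            push_cast
            exact ⟨m, by linear_combination h12⟩
          have h14 : Q' ∣ p' + 1 := by exact_mod_cast h13
          have h15 := Nat.le_of_dvd (by omega) h14
          have : p * 2 ≤ Q' := by rw [hq'c]; exact Nat.mul_le_mul_left p hc2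
          omega
  · have h1 := FF Q
    rw [if_neg hpq, add_zero, if_neg hp'q, add_zero, G_swap p Q,
      G_formula (Nat.Coprime.symm hc) (by omega) (by omega) hpq, if_pos (dvd_refl _),
      G_formula hc' (by omega) (by omega) hq'q, if_neg hp'q, sub_zero] at h1
    have e1 : (Q : ℝ) * p = p' * Q' := by rw [mul_comm]; exact hncast
    rw [e1] at h1
    have hq0 : (Q : ℂ) ≠ 0 := by exact_mod_cast (by omega : Q ≠ 0)
    have h2 : mo (ee ((Q : ℝ) / p)) = 0 := by
      have h3 := mul_left_cancel₀ (mul_ne_zero two_ne_zero hsg0) h1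
      unfold mo
      apply mul_left_cancel₀ hq0
      linear_combination -h3
    have h3 := ee_neg_one (by omega) (mo_zero (ee_ne_one (by omega) hpq) h2)
    have h4 : p ∣ 2 := hc.dvd_of_dvd_mul_right h3
    have h5 := Nat.le_of_dvd (by omega) h4
    have h6 : p = 2 := by omega
    subst h6
    nlinarith

/-- Iterated torus knots with parameters of both signs, with the same winding number and the same
jump function, have the same parameters. -/
theorem classifyZ : ∀ (L L' : List (ℕ × ℤ)), GoodZ L → GoodZ L' →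
    (∀ x, AZ (fun _ => 0) L x = AZ (fun _ => 0) L' x) → wd L = wd L' → L = L' := by
  have hj : PF (fun _ => (0 : ℤ)) := ⟨fun _ _ => rfl, by simp⟩
  have nil_ne : ∀ (c : ℕ × ℤ) (L : List (ℕ × ℤ)), GoodZ (c :: L) →
      ¬ (∀ x, AZ (fun _ => 0) (c :: L) x = 0) := by
    rintro ⟨p, q⟩ L hL h
    obtain ⟨h1, h2⟩ := F_oneZ hj hL
    have h3 : F 1 (AZ (fun _ => 0) ((p, q) :: L)) = 0 := by
      unfold F W
      simp [h]
    rw [h3] at h2
    have hq := (hL (p, q) (by simp)).2.2
    simp only at hq
    apply first_ne_zero h1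
    rcases sign_cases hq with h | h
    · rw [h] at h2; simp only [Int.cast_one, Int.cast_neg] at h2; linear_combination (-1 / 2 : ℂ) * h2
    · rw [h] at h2; simp only [Int.cast_one, Int.cast_neg] at h2; linear_combination (1 / 2 : ℂ) * h2
  intro L
  induction L with
  | nil =>
    intro L' hL hL' heq _
    rcases L' with _ | ⟨c', L'⟩
    · rfl
    · exact absurd (fun x => (heq x).symm) (nil_ne c' L' hL')
  | cons c L ih =>
    intro L' hL hL' heq hw
    rcases L' with _ | ⟨c', L'⟩
    · exact absurd (fun x => heq x) (nil_ne c L hL)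
    · obtain ⟨p, q⟩ := c
      obtain ⟨p', q'⟩ := c'
      have hg := hL (p, q) (by simp)
      have hg' := hL' (p', q') (by simp)
      simp only at hg hg'
      obtain ⟨h1a, h1b⟩ := F_oneZ hj hL
      obtain ⟨h2a, h2b⟩ := F_oneZ hj hL'
      have a1 : ee ((1 : ℝ) / ((p * q.natAbs : ℕ) : ℝ)) ≠ 1 := ee_first h1a
      have a2 : ee ((1 : ℝ) / ((p' * q'.natAbs : ℕ) : ℝ)) ≠ 1 := ee_first h2a
      have b1 : (6 : ℝ) ≤ ((p * q.natAbs : ℕ) : ℝ) := by exact_mod_cast h1a
      have b2 : (6 : ℝ) ≤ ((p' * q'.natAbs : ℕ) : ℝ) := by exact_mod_cast h2a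
      have c1 : (1 : ℝ) / ((p * q.natAbs : ℕ) : ℝ) ≤ 1 / 6 :=
        one_div_le_one_div_of_le (by norm_num) b1
      have c2 : (1 : ℝ) / ((p' * q'.natAbs : ℕ) : ℝ) ≤ 1 / 6 :=
        one_div_le_one_div_of_le (by norm_num) b2
      have c3 : (0 : ℝ) < 1 / ((p * q.natAbs : ℕ) : ℝ) := by positivity
      have c4 : (0 : ℝ) < 1 / ((p' * q'.natAbs : ℕ) : ℝ) := by positivity
      have h4 := F_congr heq 1
      rw [h1b, h2b] at h4
      have bad : ¬ mo (ee ((1 : ℝ) / ((p * q.natAbs : ℕ) : ℝ))) =
          - mo (ee ((1 : ℝ) / ((p' * q'.natAbs : ℕ) : ℝ))) := by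
        intro h
        rw [← mo_neg a2] at h
        have h5 := mo_inj a1 (ee_neg_ne_one a2) h
        rw [ee_eq_iff] at h5
        obtain ⟨m, hm⟩ := h5
        have d1 : (m : ℝ) < 1 := by linarith
        have d2 : (0 : ℝ) < m := by linarith
        have e1 : m < 1 := by exact_mod_cast d1
        have e2 : 0 < m := by exact_mod_cast d2
        omega
      have hs : q.sign = q'.sign := by
        rcases sign_cases hg.2.2 with h | h <;> rcases sign_cases hg'.2.2 with h' | h' <;>
          rw [h, h'] at h4 ⊢ <;> simp only [Int.cast_one, Int.cast_neg] at h4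
        · exact absurd (by linear_combination (1 / 2 : ℂ) * h4) bad
        · exact absurd (by linear_combination (-1 / 2 : ℂ) * h4) bad
      have hn : p * q.natAbs = p' * q'.natAbs := by
        have h3 : mo (ee ((1 : ℝ) / ((p * q.natAbs : ℕ) : ℝ))) =
            mo (ee ((1 : ℝ) / ((p' * q'.natAbs : ℕ) : ℝ))) := by
          rw [hs] at h4
          rcases sign_cases hg'.2.2 with h' | h' <;> rw [h'] at h4 <;> simp only [Int.cast_one, Int.cast_neg] at h4
          · linear_combination (1 / 2 : ℂ) * h4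
          · linear_combination (-1 / 2 : ℂ) * h4
        have h4 := mo_inj a1 a2 h3
        rw [ee_eq_iff] at h4
        obtain ⟨m, hm⟩ := h4
        have d1 : (m : ℝ) < 1 := by linarith
        have d2 : (-1 : ℝ) < m := by linarith
        have e1 : m < 1 := by exact_mod_cast d1
        have e2 : -1 < m := by exact_mod_cast d2
        have e3 : m = 0 := by omega
        rw [e3, Int.cast_zero, sub_eq_zero] at hm
        have f1 : ((p * q.natAbs : ℕ) : ℝ) = ((p' * q'.natAbs : ℕ) : ℝ) := by
          have := congrArg (fun t : ℝ => 1 / t) hm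
          simpa using this
        exact_mod_cast f1
      rcases Nat.lt_trichotomy q.natAbs q'.natAbs with h | h | h
      · exact (keyZ hL hL' heq hw hs hn h).elim
      · have hqq : q = q' := by
          rw [← Int.sign_mul_natAbs q, ← Int.sign_mul_natAbs q', hs, h]
        subst hqq
        have h1 : p = p' := Nat.eq_of_mul_eq_mul_right (by omega) hn
        subst h1
        have h3 : ∀ x, AZ (fun _ => 0) L x = AZ (fun _ => 0) L' x := by
          intro y
          have h2 := heq (y / p)
          simp only [AZ] at h2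
          have hp0 : (p : ℝ) ≠ 0 := by exact_mod_cast (by omega : p ≠ 0)
          rw [mul_div_cancel₀ y hp0] at h2
          exact add_left_cancel h2
        have h5 : wd L = wd L' := by
          simp only [wd] at hw
          exact Nat.eq_of_mul_eq_mul_left (by omega) hw
        rw [ih L' (goodZ_tail hL) (goodZ_tail hL') h3 h5]
      · exact (keyZ hL' hL (fun x => (heq x).symm) hw.symm hs.symm hn.symm h).elim

end Pool.Agent.TH945.CB
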