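import Mathlib
import Pool.Agent.TH945.CB.ClsZ
set_option autoImplicit false

/-!
# Iterated cables with parameters of both signs
-/

namespace Pool.Agent.TH945.CB

open Pool.Agent.TH670.KN Filter Topology

/-- The signature function of the iterated cable with parameters `L` (last cabling first) of a
companion with signature function `f`. The entry `(p, q)` stands for the `(p, q)`-cable, with winding
number `p` and any integer `q` prime to `p`; the torus knot `T(p, -q)` is the mirror image of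
`T(p, q)`, so its signature function is `- sig p q`. -/
noncomputable def sigCZ (f : ℝ → ℤ) : List (ℕ × ℤ) → ℝ → ℤ
  | [], x => f x
  | (p, q) :: L, x => q.sign * sig p q.natAbs x + sigCZ f L (p * x)

lemma goodZ_pos {L : List (ℕ × ℤ)} (hL : GoodZ L) : 0 < wd L := by
  induction L with
  | nil => exact one_pos
  | cons c L ih =>
    obtain ⟨p, q⟩ := c
    have h := (hL (p, q) (by simp)).2.1
    simp only at h
    exact Nat.mul_pos (by omega) (ih (goodZ_tail hL))

lemma sigCZ_jump {f : ℝ → ℤ} (hf : IsSig f) (L : List (ℕ × ℤ)) (hL : GoodZ L) (x : ℝ) :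
    HasJump (fun y => (sigCZ f L y : ℝ)) x (AZ (jmp hf) L x : ℝ) := by
  induction L generalizing x with
  | nil => exact jmp_spec hf x
  | cons c L ih =>
    obtain ⟨p, q⟩ := c
    have h1 := hL (p, q) (by simp)
    simp only at h1
    have h2 := (sig_jump h1.1 x).const_mul (q.sign : ℝ)
    have h3 := ih (goodZ_tail hL) ((p : ℝ) * x)
    have h4 := HasJump.comp_mul (P := (p : ℝ)) (by
      have : 0 < p := by omega
      exact_mod_cast this) h3
    have h5 := h2.add h4
    simp only [sigCZ, AZ]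
    push_cast
    convert h5 using 1
    ring

lemma AZ_int {f : ℝ → ℤ} (hf : IsSig f) (L : List (ℕ × ℤ)) (hL : GoodZ L) (k : ℤ) :
    AZ (jmp hf) L k = 0 := by
  induction L generalizing k with
  | nil => exact jmp_int hf k
  | cons c L ih =>
    obtain ⟨p, q⟩ := c
    simp only [AZ]
    rw [J_int (hL (p, q) (by simp)).1]
    have : (p : ℝ) * (k : ℝ) = ((p * k : ℤ) : ℝ) := by push_cast; ring
    rw [this, ih (goodZ_tail hL)]
    ring

theorem AZ_eq {f : ℝ → ℤ} (hf : IsSig f) {L L' : List (ℕ × ℤ)} (hL : GoodZ L) (hL' : GoodZ L')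
    (hfin : {x : ℝ | x ∈ Set.Ioo (0 : ℝ) 1 ∧ sigCZ f L x ≠ sigCZ f L' x}.Finite) (x : ℝ) :
    AZ (jmp hf) L x = AZ (jmp hf) L' x := by
  have key : ∀ y ∈ Set.Ioo (0 : ℝ) 1, AZ (jmp hf) L y = AZ (jmp hf) L' y := by
    intro y hy
    have h1 := (sigCZ_jump hf L hL y).add ((sigCZ_jump hf L' hL' y).const_mul (-1))
    have h2 := jump_zero (F := fun y => (sigCZ f L y : ℝ) + -1 * (sigCZ f L' y : ℝ)) ?_ hy h1
    · have h3 : (AZ (jmp hf) L y : ℝ) = (AZ (jmp hf) L' y : ℝ) := by linarith
      exact_mod_cast h3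
    · refine hfin.subset ?_
      rintro z ⟨hz, hne⟩
      refine ⟨hz, fun heq => hne ?_⟩
      simp only [heq]
      ring
  have hfl := Int.floor_add_fract x
  have hx : x = Int.fract x + (⌊x⌋ : ℝ) := by linarith
  rcases (Int.fract_nonneg x).lt_or_eq with h | h
  · have h4 := key (Int.fract x) ⟨h, Int.fract_lt_one x⟩
    rw [hx, (PF_AZ (PF_jmp hf) hL).per, (PF_AZ (PF_jmp hf) hL').per]
    exact h4
  · rw [hx, ← h, zero_add, AZ_int hf L hL, AZ_int hf L' hL']

lemma J_irr (p q : ℕ) {x : ℝ} (hx : Irrational x) : J p q x = 0 := by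
  classical
  unfold J
  refine Finset.sum_eq_zero fun i _ => Finset.sum_eq_zero fun j _ => ?_
  rw [if_neg]
  rintro ⟨n, hn⟩
  apply hx
  refine ⟨(n : ℚ) + ((i : ℚ) / p + (j : ℚ) / q), ?_⟩
  push_cast
  linarith

/-- At irrational points only the companion contributes to the jump function. -/
lemma AZ_irr (j : ℝ → ℤ) (L : List (ℕ × ℤ)) (hL : GoodZ L) {x : ℝ} (hx : Irrational x) :
    AZ j L x = j (wd L * x) := by
  induction L generalizing x with
  | nil => simp [AZ, wd]
  | cons c L ih =>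
    obtain ⟨p, q⟩ := c
    have h := (hL (p, q) (by simp)).2.1
    simp only at h
    simp only [AZ, wd]
    rw [J_irr _ _ hx, ih (goodZ_tail hL) (hx.natCast_mul (by omega))]
    rw [mul_zero, zero_add]
    congr 1
    push_cast
    ring

lemma AZ_split (j : ℝ → ℤ) (L : List (ℕ × ℤ)) (x : ℝ) :
    AZ j L x = AZ (fun _ => 0) L x + j (wd L * x) := by
  induction L generalizing x with
  | nil => simp [AZ, wd]
  | cons c L ih =>
    obtain ⟨p, q⟩ := c
    simp only [AZ, wd]
    rw [ih]
    rw [add_assoc]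
    congr 3
    push_cast
    ring

/-- If the jump function of the companion is not zero at an irrational point, then the jump function
of the iterated cable determines the winding number. -/
lemma wd_eq {j : ℝ → ℤ} (hj : PF j) (hirr : ∃ x, Irrational x ∧ j x ≠ 0) {L L' : List (ℕ × ℤ)}
    (hL : GoodZ L) (hL' : GoodZ L') (heq : ∀ x, AZ j L x = AZ j L' x) : wd L = wd L' := by
  classical
  set g : ℝ → ℤ := fun x => if Irrational x then j x else 0 with hg
  have hPF : PF g := by
    refine ⟨?_, hj.fin.subset ?_⟩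
    · intro x k
      simp only [hg, hj.per, irrational_add_intCast_iff]
    · rintro x ⟨hx, hne⟩
      refine ⟨hx, fun h => hne ?_⟩
      simp only [hg, h, ite_self]
  have hcomp : ∀ x : ℝ, g (wd L * x) = g (wd L' * x) := by
    intro x
    have h0 := goodZ_pos hL
    have h0' := goodZ_pos hL'
    by_cases hx : Irrational x
    · have h1 := heq x
      rw [AZ_irr j L hL hx, AZ_irr j L' hL' hx] at h1
      simp only [hg]
      rw [if_pos (hx.natCast_mul (by omega)), if_pos (hx.natCast_mul (by omega)), h1]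
    · have h2 : ∀ n : ℕ, ¬ Irrational ((n : ℝ) * x) := by
        intro n h3
        unfold Irrational at hx
        push Not at hx
        obtain ⟨r, hr⟩ := hx
        apply h3
        exact ⟨(n : ℚ) * r, by push_cast; rw [hr]⟩
      simp only [hg]
      rw [if_neg (h2 _), if_neg (h2 _)]
  have h1 := cnt_comp hPF (goodZ_pos hL)
  have h2 := cnt_comp hPF (goodZ_pos hL')
  have h3 : cnt (fun x => g (wd L * x)) = cnt (fun x => g (wd L' * x)) := by
    have : (fun x : ℝ => g (wd L * x)) = fun x => g (wd L' * x) := funext hcomp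
    rw [this]
  rw [h1, h2] at h3
  apply Nat.eq_of_mul_eq_mul_left _ h3
  apply Nat.pos_of_ne_zero
  intro h4
  unfold cnt at h4
  rw [Set.ncard_eq_zero hPF.fin] at h4
  obtain ⟨x, hx, hne⟩ := hirr
  have h6 := hj.per (Int.fract x) ⌊x⌋
  have h7 := Int.floor_add_fract x
  rw [show Int.fract x + (⌊x⌋ : ℝ) = x by linarith] at h6
  have h9 : Irrational (Int.fract x) := by
    have h10 : Irrational (Int.fract x + (⌊x⌋ : ℝ)) := by
      rw [show Int.fract x + (⌊x⌋ : ℝ) = x by linarith]; exact hx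
    exact irrational_add_intCast_iff.1 h10
  have h8 : Int.fract x ∈ {x : ℝ | x ∈ Set.Ico (0 : ℝ) 1 ∧ g x ≠ 0} := by
    refine ⟨⟨Int.fract_nonneg _, Int.fract_lt_one _⟩, ?_⟩
    simp only [hg]
    rw [if_pos h9, ← h6]
    exact hne
  rw [h4] at h8
  exact h8

/-- The positive case, in terms of `main`. -/
lemma sigCZ_pos (f : ℝ → ℤ) (L : List (ℕ × ℤ)) (hp : ∀ c ∈ L, 0 < c.2) (x : ℝ) :
    sigCZ f L x = sigC f (L.map fun c => (c.1, c.2.natAbs)) x := by
  induction L generalizing x with
  | nil => rfl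
  | cons c L ih =>
    obtain ⟨p, q⟩ := c
    have h := hp (p, q) (by simp)
    simp only at h
    simp only [sigCZ, List.map_cons, sigC]
    rw [ih (fun c hc => hp c (by simp [hc])), Int.sign_eq_one_of_pos h, one_mul]

lemma map_inj : ∀ (L L' : List (ℕ × ℤ)), (∀ c ∈ L, 0 < c.2) → (∀ c ∈ L', 0 < c.2) →
    L.map (fun c => (c.1, c.2.natAbs)) = L'.map (fun c => (c.1, c.2.natAbs)) → L = L' := by
  intro L
  induction L with
  | nil =>
    intro L' _ _ h
    rcases L' with _ | ⟨c, L'⟩
    · rfl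
    · simp at h
  | cons c L ih =>
    intro L' hL hL' h
    rcases L' with _ | ⟨c', L'⟩
    · simp at h
    · obtain ⟨p, q⟩ := c
      obtain ⟨p', q'⟩ := c'
      have h1 := hL (p, q) (by simp)
      have h2 := hL' (p', q') (by simp)
      simp only at h1 h2
      rw [List.map_cons, List.map_cons, List.cons.injEq, Prod.mk.injEq] at h
      obtain ⟨⟨h3, h4⟩, h5⟩ := h
      simp only at h3 h4
      have h6 : q = q' := by omega
      rw [h3, h6, ih L' (fun c hc => hL c (by simp [hc])) (fun c hc => hL' c (by simp [hc])) h5]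

/-- A point where `f` is not locally constant in a punctured neighbourhood is a jump. -/
lemma jmp_ne_zero {f : ℝ → ℤ} (hf : IsSig f) {x : ℝ}
    (h : ∀ a : ℤ, ¬ ∀ᶠ y in 𝓝[≠] x, f y = a) : jmp hf x ≠ 0 := by
  intro h0
  obtain ⟨δ, hδ, a, b, h1, h2⟩ := hf.sides x
  have h3 : jmp hf x = a - b := by
    apply jmp_eq
    filter_upwards [eventually_lt hδ] with ε hε
    rw [h1 (x + ε) ⟨by linarith [hε.1], by linarith [hε.2]⟩,
      h2 (x - ε) ⟨by linarith [hε.2], by linarith [hε.1]⟩]
    push_cast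
    ring
  have hab : a = b := by omega
  apply h a
  rw [eventually_nhdsWithin_iff, Metric.eventually_nhds_iff]
  refine ⟨δ, hδ, fun y hy hne => ?_⟩
  rw [Real.dist_eq, abs_lt] at hy
  rcases lt_or_gt_of_ne (show y ≠ x from hne) with h4 | h4
  · rw [hab]; exact h2 y ⟨by linarith, h4⟩
  · exact h1 y ⟨h4, by linarith⟩

/-- The classification of iterated cables, with parameters of both signs if the signature function of
the companion has an irrational jump. -/
theorem mainZ {f : ℝ → ℤ} (hf : IsSig f)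
    (hne : ∀ a : ℤ, ¬ {x : ℝ | x ∈ Set.Ico (0 : ℝ) 1 ∧ f x ≠ a}.Finite)
    {L L' : List (ℕ × ℤ)} (hL : GoodZ L) (hL' : GoodZ L')
    (hsign : ((∀ c ∈ L, 0 < c.2) ∧ (∀ c ∈ L', 0 < c.2)) ∨
      ∃ x, Irrational x ∧ ∀ a : ℤ, ¬ ∀ᶠ y in 𝓝[≠] x, f y = a)
    (hfin : {x : ℝ | x ∈ Set.Ioo (0 : ℝ) 1 ∧ sigCZ f L x ≠ sigCZ f L' x}.Finite) : L = L' := by
  rcases hsign with ⟨hp, hp'⟩ | ⟨x, hx, hjx⟩
  · apply map_inj L L' hp hp'
    have hG : ∀ K : List (ℕ × ℤ), GoodZ K → Good (K.map fun c => (c.1, c.2.natAbs)) := by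
      intro K hK c hc
      rw [List.mem_map] at hc
      obtain ⟨d, hd, rfl⟩ := hc
      exact hK d hd
    rcases main hf (hG L hL) (hG L' hL') (hfin.subset (by
      rintro y ⟨hy, hne⟩
      refine ⟨hy, ?_⟩
      rw [sigCZ_pos f L hp, sigCZ_pos f L' hp']
      exact hne)) with h | ⟨_, a, ha⟩
    · exact h
    · exact absurd ha (hne a)
  · have heq := AZ_eq hf hL hL' hfin
    have hw := wd_eq (PF_jmp hf) ⟨x, hx, jmp_ne_zero hf hjx⟩ hL hL' heq
    apply classifyZ L L' hL hL' _ hw
    intro y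
    have h1 := heq y
    rw [AZ_split, AZ_split (jmp hf) L', hw] at h1
    exact add_right_cancel h1

end Pool.Agent.TH945.CB
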